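import Mathlib
import Pool.Agent.Helper94.B2.Defs

/-!
Project B2 (MP_8410f8_pr), piece G1: packing bound and maximal separated sets.
-/

open MeasureTheory Set
open scoped ENNReal

namespace Pool.Agent.Helper94.B2

open Pool.Agent.Helper97.BG

/-- Packing: the balls of radius `r/2` around the points of `s` are disjoint and contained in the
ball of radius `R + r/2` around `c`; compare volumes in dimension `d + 1`
(`MeasureTheory.Measure.addHaar_ball_of_pos` / `addHaar_ball_mul`, `measure_biUnion_finset`):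
`card s * (r/2)^(d+1) ≤ (R + r/2)^(d+1)`. -/
theorem packing {d : ℕ} (c : V d) {R r : ℝ} (hr : 0 < r) (hR : 0 ≤ R) (s : Finset (V d))
    (hsep : ∀ x ∈ s, ∀ y ∈ s, x ≠ y → r ≤ ‖x - y‖) (hball : ∀ x ∈ s, ‖x - c‖ ≤ R) :
    (s.card : ℝ) ≤ (1 + 2 * R / r) ^ (d + 1) := by
  have hδ : 0 < r / 2 := by positivity
  have hρ : 0 < R + r / 2 := by positivity
  have hfr : Module.finrank ℝ (V d) = d + 1 := by simp
  have D : (s : Set (V d)).Pairwise
      (Function.onFun Disjoint fun x => Metric.ball (x : V d) (r / 2)) := by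
    intro x hx y hy hxy
    apply Metric.ball_disjoint_ball
    rw [dist_eq_norm]
    have := hsep x hx y hy hxy
    linarith
  have hsub : (⋃ x ∈ s, Metric.ball (x : V d) (r / 2)) ⊆ Metric.ball c (R + r / 2) := by
    refine iUnion₂_subset fun x hx => ?_
    apply Metric.ball_subset_ball'
    rw [dist_eq_norm]
    have := hball x hx
    linarith
  have I : (s.card : ℝ≥0∞) * ENNReal.ofReal ((r / 2) ^ (d + 1)) *
      (volume : Measure (V d)) (Metric.ball 0 1) ≤
      ENNReal.ofReal ((R + r / 2) ^ (d + 1)) * (volume : Measure (V d)) (Metric.ball 0 1) := by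
    calc
      (s.card : ℝ≥0∞) * ENNReal.ofReal ((r / 2) ^ (d + 1)) *
          (volume : Measure (V d)) (Metric.ball 0 1)
          = (volume : Measure (V d)) (⋃ x ∈ s, Metric.ball (x : V d) (r / 2)) := by
        rw [measure_biUnion_finset D fun c _ => measurableSet_ball]
        simp only [Measure.addHaar_ball_of_pos (volume : Measure (V d)) _ hδ, hfr]
        simp only [Finset.sum_const, nsmul_eq_mul, mul_assoc]
      _ ≤ (volume : Measure (V d)) (Metric.ball c (R + r / 2)) := measure_mono hsub
      _ = ENNReal.ofReal ((R + r / 2) ^ (d + 1)) *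
          (volume : Measure (V d)) (Metric.ball 0 1) := by
        simp only [Measure.addHaar_ball_of_pos (volume : Measure (V d)) _ hρ, hfr]
  have J : (s.card : ℝ≥0∞) * ENNReal.ofReal ((r / 2) ^ (d + 1)) ≤
      ENNReal.ofReal ((R + r / 2) ^ (d + 1)) :=
    (ENNReal.mul_le_mul_iff_left (Metric.measure_ball_pos _ _ zero_lt_one).ne'
      measure_ball_lt_top.ne).1 I
  have K : (s.card : ℝ) * (r / 2) ^ (d + 1) ≤ (R + r / 2) ^ (d + 1) := by
    have h := ENNReal.toReal_le_of_le_ofReal (pow_nonneg hρ.le _) J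
    rw [ENNReal.toReal_mul, ENNReal.toReal_natCast,
      ENNReal.toReal_ofReal (pow_nonneg hδ.le _)] at h
    exact h
  have h1 : (1 + 2 * R / r) = (R + r / 2) / (r / 2) := by
    field_simp
    ring
  rw [h1, div_pow, le_div_iff₀ (by positivity)]
  exact K

/-- Maximal `r`-separated finite subset of the sphere: by `packing` (centre `0`, `R = 1`) the
cardinalities of `r`-separated finite subsets are bounded; take one of maximal cardinality and
enumerate it by `Fin M`. By maximality every `x` is at distance `< r` from one of the points. -/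
theorem exists_centres (d : ℕ) {r : ℝ} (hr : 0 < r) :
    ∃ (M : ℕ) (z : Fin M → Sph d),
      (∀ i j, i ≠ j → r ≤ ‖(z i : V d) - z j‖) ∧
      ∀ x : Sph d, ∃ i, ‖(x : V d) - z i‖ < r := by
  classical
  let P : ℕ → Prop := fun n => ∃ t : Finset (Sph d), t.card = n ∧
    ∀ x ∈ t, ∀ y ∈ t, x ≠ y → r ≤ ‖(x : V d) - y‖
  have hbd : ∀ n, P n → n ≤ ⌈(1 + 2 * 1 / r) ^ (d + 1)⌉₊ := by
    rintro n ⟨t, rfl, ht⟩
    have h1 : ((t.image (fun x : Sph d => (x : V d))).card : ℝ) ≤ (1 + 2 * 1 / r) ^ (d + 1) := by
      refine packing (0 : V d) hr zero_le_one _ ?_ ?_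
      · intro x hx y hy hxy
        obtain ⟨x', hx', rfl⟩ := Finset.mem_image.1 hx
        obtain ⟨y', hy', rfl⟩ := Finset.mem_image.1 hy
        exact ht x' hx' y' hy' fun h => hxy (by rw [h])
      · intro x hx
        obtain ⟨x', hx', rfl⟩ := Finset.mem_image.1 hx
        rw [sub_zero]
        exact (mem_sphere_zero_iff_norm.1 x'.2).le
    rw [Finset.card_image_of_injective _ Subtype.val_injective] at h1
    exact_mod_cast h1.trans (Nat.le_ceil _)
  have hne : {n | P n}.Nonempty := ⟨0, ∅, rfl, by simp⟩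
  have hbdd : BddAbove {n | P n} := ⟨_, fun n hn => hbd n hn⟩
  obtain ⟨t, ht, hsep⟩ : P (sSup {n | P n}) := Nat.sSup_mem hne hbdd
  refine ⟨t.card, fun i => (t.equivFin.symm i : Sph d), ?_, ?_⟩
  · intro i j hij
    refine hsep _ (t.equivFin.symm i).2 _ (t.equivFin.symm j).2 ?_
    intro h
    exact hij (t.equivFin.symm.injective (Subtype.ext h))
  · intro x
    by_contra hcon
    push Not at hcon
    have hx : ∀ y ∈ t, r ≤ ‖(x : V d) - y‖ := by
      intro y hy
      have := hcon (t.equivFin ⟨y, hy⟩)
      simpa using this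
    have hxt : x ∉ t := by
      intro h
      have := hx x h
      rw [sub_self, norm_zero] at this
      linarith
    have hP : P (t.card + 1) := by
      refine ⟨insert x t, Finset.card_insert_of_notMem hxt, ?_⟩
      intro u hu v hv huv
      rw [Finset.mem_insert] at hu hv
      rcases hu with rfl | hu
      · rcases hv with rfl | hv
        · exact absurd rfl huv
        · exact hx v hv
      · rcases hv with rfl | hv
        · rw [norm_sub_rev]
          exact hx u hu
        · exact hsep u hu v hv huv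
    have h1 := le_csSup hbdd hP
    omega

/-- Degree bound: for fixed `i` the points `-z j` with `‖z i + z j‖ ≤ 2 a` are `a/2`-separated and lie
at distance `≤ 2 a` from `z i`: `packing` with `R = 2 a`, `r = a / 2`, `1 + 2 R / r = 9`. -/
theorem degree_bound {d M : ℕ} {a : ℝ} (ha : 0 < a) (z : Fin M → Sph d)
    (hz : ∀ i j, i ≠ j → a / 2 ≤ ‖(z i : V d) - z j‖) (i : Fin M) :
    {j | i ≠ j ∧ ‖(z i : V d) + z j‖ ≤ 2 * a}.ncard ≤ 9 ^ (d + 1) := by
  classical
  set S : Finset (Fin M) := {j | i ≠ j ∧ ‖(z i : V d) + z j‖ ≤ 2 * a} with hS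
  have h0 : {j | i ≠ j ∧ ‖(z i : V d) + z j‖ ≤ 2 * a} = (S : Set (Fin M)) := by
    ext j
    simp [hS]
  rw [h0, Set.ncard_coe_finset]
  have hinj : Function.Injective fun j : Fin M => -(z j : V d) := by
    intro j k hjk
    by_contra hne
    have h1 := hz j k hne
    have h2 : (z j : V d) = z k := neg_injective hjk
    rw [h2, sub_self, norm_zero] at h1
    linarith
  have h1 : ((S.image fun j => -(z j : V d)).card : ℝ) ≤ (1 + 2 * (2 * a) / (a / 2)) ^ (d + 1) := by
    refine packing (z i : V d) (by positivity) (by positivity) _ ?_ ?_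
    · intro x hx y hy hxy
      obtain ⟨j, hj, rfl⟩ := Finset.mem_image.1 hx
      obtain ⟨k, hk, rfl⟩ := Finset.mem_image.1 hy
      have h2 : -(z j : V d) - -(z k : V d) = -((z j : V d) - z k) := by abel
      rw [h2, norm_neg]
      exact hz j k fun h => hxy (by rw [h])
    · intro x hx
      obtain ⟨j, hj, rfl⟩ := Finset.mem_image.1 hx
      have h2 : -(z j : V d) - (z i : V d) = -((z i : V d) + z j) := by abel
      rw [h2, norm_neg]
      exact (Finset.mem_filter.1 hj).2.2
  rw [Finset.card_image_of_injective _ hinj] at h1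
  have h2 : 1 + 2 * (2 * a) / (a / 2) = 9 := by
    field_simp
    norm_num
  rw [h2] at h1
  exact_mod_cast h1

end Pool.Agent.Helper94.B2
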