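import Mathlib
import Pool.Agent.Helper94.B2.Defs

/-!
Project B2 (MP_8410f8_pr), piece D6: marginals of the weight.
-/

open scoped ENNReal

namespace Pool.Agent.Helper94.B2

open Pool.Agent.Helper97.BG

variable {M : ℕ}

private lemma d6_cell (s : ℝ≥0∞) (hs1 : s ≤ 1) (t : ℝ≥0∞) (N : ℕ) :
    ∑ c : Bool, cw s t (N, c) = t ^ N * ((N.factorial : ℝ≥0∞))⁻¹ := by
  rw [Fintype.sum_bool]
  unfold cw
  simp only [if_true, Bool.false_eq_true, if_false]
  rw [← mul_add, tsub_add_cancel_of_le (pow_le_one' hs1 N), mul_one]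

/-- `Conf M ≃ (Fin M → ℕ) × (Fin M → Bool)` (`Equiv.arrowProdEquivProdArrow`), `ENNReal.tsum_prod`, and
for fixed occupation numbers `N` the sum over the types is
`∏ v, (cw (N v, false) + cw (N v, true)) = ∏ v, t^N/N!` (`Finset.prod_univ_sum` or
`Fintype.piFinset`; `s^N + (1 - s^N) = 1`). -/
theorem sum_wt_counts (s : ℝ≥0∞) (hs1 : s ≤ 1) (t : Fin M → ℝ≥0∞) (G : (Fin M → ℕ) → ℝ≥0∞) :
    ∑' w : Conf M, wt s t w * G (fun v => (w v).1) =
      ∑' N : Fin M → ℕ, (∏ v, t v ^ N v * (((N v).factorial : ℝ≥0∞))⁻¹) * G N := by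
  classical
  let e : (Fin M → ℕ) × (Fin M → Bool) ≃ Conf M :=
    (Equiv.arrowProdEquivProdArrow (Fin M) (fun _ => ℕ) (fun _ => Bool)).symm
  have he : ∀ p : (Fin M → ℕ) × (Fin M → Bool), ∀ v, e p v = (p.1 v, p.2 v) := fun _ _ => rfl
  rw [← e.tsum_eq, ENNReal.tsum_prod']
  refine tsum_congr fun N => ?_
  have h1 : ∀ b : Fin M → Bool, wt s t (e (N, b)) * G (fun v => (e (N, b) v).1) =
      (∏ v, cw s (t v) (N v, b v)) * G N := fun b => rfl
  simp_rw [h1]
  rw [ENNReal.tsum_mul_right, tsum_fintype]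
  congr 1
  have h2 := Finset.prod_univ_sum (fun _ : Fin M => (Finset.univ : Finset Bool))
    (fun v c => cw s (t v) (N v, c))
  rw [Fintype.piFinset_univ] at h2
  rw [← h2]
  exact Finset.prod_congr rfl fun v _ => d6_cell s hs1 (t v) (N v)

/-- Interchange the sums; for fixed `w` only `D = kept H w` contributes (`tsum_eq_single`). -/
theorem sum_qq (H : Fin M → Fin M → Prop) (s : ℝ≥0∞) (t : Fin M → ℝ≥0∞)
    (F : (Fin M → ℕ) → ℝ≥0∞) :
    ∑' D : Fin M → ℕ, qq H s t D * F D = ∑' w : Conf M, wt s t w * F (kept H w) := by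
  unfold qq
  simp_rw [← ENNReal.tsum_mul_right]
  rw [ENNReal.tsum_comm]
  refine tsum_congr fun w => ?_
  rw [tsum_eq_single (kept H w)]
  · unfold ind
    simp
  · intro D hD
    unfold ind
    simp [hD.symm]

/-- The sum of products is the product of sums: induction on `M` with `Fin.consEquiv` /
`Fin.insertNthEquiv` and `ENNReal.tsum_prod`, or deduce it from a general lemma
`∑' N : Fin M → ℕ, ∏ v, a v (N v) = ∏ v, ∑' n, a v n`. -/
theorem tsum_prod_pi (a : Fin M → ℕ → ℝ≥0∞) :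
    ∑' N : Fin M → ℕ, ∏ v, a v (N v) = ∏ v, ∑' n, a v n := by
  induction M with
  | zero =>
    rw [tsum_fintype]
    simp
  | succ M ih =>
    rw [← (Fin.consEquiv (fun _ : Fin (M + 1) => ℕ)).tsum_eq, ENNReal.tsum_prod',
      Fin.prod_univ_succ, ← ih (fun v => a v.succ), ← ENNReal.tsum_mul_right]
    refine tsum_congr fun n => ?_
    rw [← ENNReal.tsum_mul_left]
    refine tsum_congr fun N => ?_
    rw [Fin.prod_univ_succ]
    rfl

end Pool.Agent.Helper94.B2
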