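import Mathlib
import Pool.Agent.Helper94.B2.Defs

/-!
Project B2 (MP_8410f8_pr), piece D7: one-dimensional domination.
-/

open scoped ENNReal

namespace Pool.Agent.Helper94.B2

/-- `∑ e^{-t} t^j/j! = 1` (compare `Pool.Agent.Helper97.BG.p4_exp`, which may be imported). -/
theorem po_tsum (t : ℝ≥0∞) (ht : t ≠ ∞) : ∑' j, po t j = 1 := by
  have h1 : ∀ n : ℕ, t ^ n * ((n.factorial : ℝ≥0∞))⁻¹ =
      ENNReal.ofReal (t.toReal ^ n / (n.factorial : ℝ)) := by
    intro n
    have h2 : (0 : ℝ) < (n.factorial : ℝ) := by exact_mod_cast n.factorial_pos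
    rw [ENNReal.ofReal_div_of_pos h2, ENNReal.ofReal_pow ENNReal.toReal_nonneg,
      ENNReal.ofReal_toReal ht, ENNReal.ofReal_natCast, ENNReal.div_eq_inv_mul, mul_comm]
  have h3 : Real.exp t.toReal = ∑' n : ℕ, t.toReal ^ n / (n.factorial : ℝ) := by
    rw [Real.exp_eq_exp_ℝ, NormedSpace.exp_eq_tsum_div]
  unfold po
  rw [ENNReal.tsum_mul_left, tsum_congr h1, ← ENNReal.ofReal_tsum_of_nonneg
    (fun n => by positivity) (Real.summable_pow_div_factorial t.toReal), ← h3,
    ← ENNReal.ofReal_mul (Real.exp_pos _).le, ← Real.exp_add, neg_add_cancel, Real.exp_zero,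
    ENNReal.ofReal_one]

private theorem d7_shift (q : ℕ → ℝ≥0∞) (i : ℕ) :
    ∑' j, (if i < j then q j else 0) = ∑' j, q (j + (i + 1)) := by
  have h := (ENNReal.summable (f := fun n => (fun j => if i < j then q j else 0) (n + (i + 1)))).sum_add_tsum_nat_add'
    (f := fun j => if i < j then q j else 0) (k := i + 1)
  rw [← h]
  have h1 : ∑ j ∈ Finset.range (i + 1), (if i < j then q j else 0) = 0 := by
    refine Finset.sum_eq_zero fun j hj => ?_
    rw [Finset.mem_range] at hj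
    rw [if_neg (by omega)]
  rw [h1, zero_add]
  refine tsum_congr fun j => ?_
  rw [if_pos (by omega)]

private theorem d7_parts (q F : ℕ → ℝ≥0∞) (hF : Monotone F) :
    ∑' j, q j * F j = (∑' j, q j) * F 0 +
      ∑' i, (F (i + 1) - F i) * ∑' j, q (j + (i + 1)) := by
  have h1 : ∀ j, F j = F 0 + ∑' i, (if i < j then F (i + 1) - F i else 0) := by
    intro j
    have h2 : ∑' i, (if i < j then F (i + 1) - F i else 0) =
        ∑ i ∈ Finset.range j, (F (i + 1) - F i) := by
      rw [tsum_eq_sum (s := Finset.range j)]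
      · refine Finset.sum_congr rfl fun i hi => ?_
        rw [if_pos (Finset.mem_range.1 hi)]
      · intro i hi
        rw [if_neg (fun h => hi (Finset.mem_range.2 h))]
    rw [h2]
    induction j with
    | zero => simp
    | succ j ih =>
      have ih' : F j = F 0 + ∑ i ∈ Finset.range j, (F (i + 1) - F i) := by
        apply ih
        rw [tsum_eq_sum (s := Finset.range j)]
        · refine Finset.sum_congr rfl fun i hi => ?_
          rw [if_pos (Finset.mem_range.1 hi)]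
        · intro i hi
          rw [if_neg (fun h => hi (Finset.mem_range.2 h))]
      rw [Finset.sum_range_succ, ← add_assoc, ← ih', add_tsub_cancel_of_le (hF (Nat.le_succ j))]
  calc ∑' j, q j * F j
      = ∑' j, (q j * F 0 + ∑' i, (if i < j then (F (i + 1) - F i) * q j else 0)) := by
        refine tsum_congr fun j => ?_
        conv_lhs => rw [h1 j]
        rw [mul_add, ← ENNReal.tsum_mul_left]
        congr 1
        refine tsum_congr fun i => ?_
        split_ifs
        · rw [mul_comm]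
        · rw [mul_zero]
    _ = (∑' j, q j) * F 0 + ∑' j, ∑' i, (if i < j then (F (i + 1) - F i) * q j else 0) := by
        rw [ENNReal.tsum_add, ENNReal.tsum_mul_right]
    _ = (∑' j, q j) * F 0 + ∑' i, ∑' j, (if i < j then (F (i + 1) - F i) * q j else 0) := by
        rw [ENNReal.tsum_comm]
    _ = _ := by
        congr 1
        refine tsum_congr fun i => ?_
        rw [← d7_shift, ← ENNReal.tsum_mul_left]
        refine tsum_congr fun j => ?_
        split_ifs
        · rfl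
        · rw [mul_zero]

/-- Summation by parts: `F j = F 0 + ∑ i ∈ range j, (F (i+1) - F i)` (`Finset.sum_range_tsub`), so
`∑ q j F j = F 0 ∑ q + ∑ i, (F (i+1) - F i) * ∑ j, q (j + (i+1))` (write the inner sum as
`∑ j, if i < j then q j else 0` and interchange with `ENNReal.tsum_comm`), and the same for `p`. -/
theorem oneD (q p F : ℕ → ℝ≥0∞) (hp : ∑' j, p j = 1) (hF : Monotone F) (hF1 : ∀ j, F j ≤ 1)
    (h : ∀ J, ∑' j, q (j + J) ≤ (∑' j, q j) * ∑' j, p (j + J)) :
    ∑' j, q j * F j ≤ (∑' j, q j) * ∑' j, p j * F j := by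
  rw [d7_parts q F hF, d7_parts p F hF, hp, one_mul, mul_add, ← ENNReal.tsum_mul_left]
  refine add_le_add le_rfl (ENNReal.tsum_le_tsum fun i => ?_)
  calc (F (i + 1) - F i) * ∑' j, q (j + (i + 1))
      ≤ (F (i + 1) - F i) * ((∑' j, q j) * ∑' j, p (j + (i + 1))) := by
        gcongr
        exact h (i + 1)
    _ = (∑' j, q j) * ((F (i + 1) - F i) * ∑' j, p (j + (i + 1))) := by ring

/-- `J = 0`: `po_tsum`. `J ≥ 1`: for `i = j + J ≥ 1`,
`(t/2)^i/i! ≤ (2/3) * (3t/4)^i/i! ≤ e^{-3t/4} (3t/4)^i/i! = po (3/4 * t) i` because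
`(2/3)^i ≤ 2/3 ≤ e^{-3/8} ≤ e^{-3t/4}` for `t ≤ 1/2`; so `q i ≤ q 0 * po (3/4 * t) i` and
`q 0 ≤ ∑ q`. -/
theorem tail_of_ratio (t : ℝ≥0∞) (ht : t ≤ 2⁻¹) (q : ℕ → ℝ≥0∞)
    (hq : ∀ j, 1 ≤ j → q j ≤ (t * 2⁻¹) ^ j * ((j.factorial : ℝ≥0∞))⁻¹ * q 0) (J : ℕ) :
    ∑' j, q (j + J) ≤ (∑' j, q j) * ∑' j, po (3 / 4 * t) (j + J) := by
  have htop : t ≠ ∞ := ne_top_of_le_ne_top (by norm_num) ht
  have h34 : (3 / 4 : ℝ≥0∞) ≠ ∞ := by
    apply ENNReal.div_ne_top <;> norm_num
  have h34t : 3 / 4 * t ≠ ∞ := ENNReal.mul_ne_top h34 htop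
  rcases Nat.eq_zero_or_pos J with rfl | hJ
  · simp only [add_zero]
    rw [po_tsum _ h34t, mul_one]
  have hexp : (2 / 3 : ℝ≥0∞) ≤ ENNReal.ofReal (Real.exp (-(3 / 4 * t).toReal)) := by
    have h1 : (3 / 4 * t).toReal ≤ 3 / 8 := by
      have h2 : (3 / 4 * t).toReal = 3 / 4 * t.toReal := by
        rw [ENNReal.toReal_mul]
        norm_num
      have h3 : t.toReal ≤ 1 / 2 := by
        have := ENNReal.toReal_mono (by norm_num) ht
        rw [ENNReal.toReal_inv] at this
        norm_num at this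
        linarith
      rw [h2]
      linarith
    have h4 : (2 / 3 : ℝ) ≤ Real.exp (-(3 / 4 * t).toReal) := by
      have h5 : (29 / 32 : ℝ) ≤ Real.exp (-(3 / 32)) := by
        have := Real.add_one_le_exp (-(3 / 32) : ℝ)
        linarith
      have h6 : (29 / 32 : ℝ) ^ 4 ≤ Real.exp (-(3 / 32)) ^ 4 :=
        pow_le_pow_left₀ (by norm_num) h5 4
      have h7 : Real.exp (-(3 / 32)) ^ 4 = Real.exp (-(3 / 8)) := by
        rw [← Real.exp_nat_mul]
        congr 1
        norm_num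
      have h8 : Real.exp (-(3 / 8)) ≤ Real.exp (-(3 / 4 * t).toReal) :=
        Real.exp_le_exp.2 (by linarith)
      rw [h7] at h6
      norm_num at h6
      linarith
    calc (2 / 3 : ℝ≥0∞) = ENNReal.ofReal (2 / 3) := by
          rw [ENNReal.ofReal_div_of_pos (by norm_num)]
          norm_num
      _ ≤ _ := ENNReal.ofReal_le_ofReal h4
  have h23 : (2 / 3 : ℝ≥0∞) ≤ 1 := by
    rw [ENNReal.div_le_iff_le_mul (Or.inl (by norm_num)) (Or.inl (by norm_num))]
    norm_num
  have hsplit : t * 2⁻¹ = 2 / 3 * (3 / 4 * t) := by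
    have h1 : (2 / 3 : ℝ≥0∞) * (3 / 4) = 2⁻¹ := by
      have h2 : (2 / 3 : ℝ≥0∞) * (3 / 4) ≠ ∞ :=
        ENNReal.mul_ne_top (by apply ENNReal.div_ne_top <;> norm_num) h34
      rw [← ENNReal.toReal_eq_toReal_iff' h2 (by norm_num), ENNReal.toReal_mul]
      norm_num
    rw [← mul_assoc, h1, mul_comm]
  have key : ∀ i, 1 ≤ i → q i ≤ q 0 * po (3 / 4 * t) i := by
    intro i hi
    refine (hq i hi).trans ?_
    unfold po
    have h1 : (2 / 3 : ℝ≥0∞) ^ i ≤ ENNReal.ofReal (Real.exp (-(3 / 4 * t).toReal)) := by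
      refine le_trans ?_ hexp
      calc (2 / 3 : ℝ≥0∞) ^ i ≤ (2 / 3 : ℝ≥0∞) ^ 1 := pow_le_pow_of_le_one zero_le h23 hi
        _ = 2 / 3 := pow_one _
    calc (t * 2⁻¹) ^ i * ((i.factorial : ℝ≥0∞))⁻¹ * q 0
        = q 0 * ((2 / 3) ^ i * ((3 / 4 * t) ^ i * ((i.factorial : ℝ≥0∞))⁻¹)) := by
          rw [hsplit, mul_pow]
          ring
      _ ≤ _ := by gcongr
  calc ∑' j, q (j + J) ≤ ∑' j, q 0 * po (3 / 4 * t) (j + J) :=
        ENNReal.tsum_le_tsum fun j => key (j + J) (by omega)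
    _ = q 0 * ∑' j, po (3 / 4 * t) (j + J) := ENNReal.tsum_mul_left
    _ ≤ _ := by
        gcongr
        exact ENNReal.le_tsum 0

end Pool.Agent.Helper94.B2
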