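import Mathlib
import Pool.Agent.Helper94.B2.Defs
import Pool.Agent.Helper97.BG.St.P1
import Pool.Agent.Helper97.BG.St.P2

/-!
Project B2 (MP_8410f8_pr), piece J1: measurability and simple bounds for `J`.
-/

open MeasureTheory Set
open scoped ENNReal

namespace Pool.Agent.Helper94.B2

open Pool.Agent.Helper97.BG

variable {S : Type*} [MeasurableSpace S]

/-- Induction on `M`. `M = 0`: `f (A ∪ ∅) = f A`. Step: the function is
`A ↦ tup (nu 0) (D 0) (fun A' => g (A ∪ A'))` with `g C = J M _ _ (fun B => f (C ∪ B))`
(`Set.union_assoc`), which is `MS` by the induction hypothesis; `MS_union_tup`. -/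
theorem MS_J (M : ℕ) (nu : Fin M → Measure S) [∀ i, IsFiniteMeasure (nu i)] (D : Fin M → ℕ)
    {f : Set S → ℝ≥0∞} (hf : MS f) : MS (fun A => J M nu D (fun B => f (A ∪ B))) := by
  induction M generalizing f with
  | zero =>
    intro n
    have h := hf n
    have e : (fun X : Fin n → S => J 0 nu D (fun B => f (Set.range X ∪ B))) =
        fun X : Fin n → S => f (Set.range X) := by
      funext X
      change f (Set.range X ∪ ∅) = f (Set.range X)
      rw [Set.union_empty]
    change Measurable (fun X : Fin n → S => J 0 nu D (fun B => f (Set.range X ∪ B)))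
    rw [e]
    exact h
  | succ M ih =>
    have hg := ih (fun i => nu i.succ) (fun i => D i.succ) hf
    have h := MS_union_tup (nu 0) hg (D 0)
    have e : (fun A => J (M + 1) nu D (fun B => f (A ∪ B))) =
        fun A => tup (nu 0) (D 0) (fun A' => J M (fun i => nu i.succ) (fun i => D i.succ)
          (fun B => f ((A ∪ A') ∪ B))) := by
      funext A
      change tup (nu 0) (D 0) (fun A' => J M (fun i => nu i.succ) (fun i => D i.succ)
          (fun B => f (A ∪ (A' ∪ B)))) = _
      simp_rw [Set.union_assoc]
    rw [e]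
    exact h

/-- Induction on `M` with `tup_mono`. -/
theorem J_mono (M : ℕ) (nu : Fin M → Measure S) (D : Fin M → ℕ) {f g : Set S → ℝ≥0∞}
    (h : ∀ A : Set S, A.Finite → f A ≤ g A) : J M nu D f ≤ J M nu D g := by
  induction M generalizing f g with
  | zero => exact h ∅ Set.finite_empty
  | succ M ih =>
    refine tup_mono (nu 0) (D 0) fun A hA => ?_
    exact ih (fun i => nu i.succ) (fun i => D i.succ) fun B hB => h (A ∪ B) (hA.union hB)

/-- Induction on `M` with `tup_mono`, `tup_const`. -/
theorem J_le_one (M : ℕ) (nu : Fin M → Measure S) [∀ i, IsProbabilityMeasure (nu i)]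
    (D : Fin M → ℕ) {f : Set S → ℝ≥0∞} (h : ∀ A, f A ≤ 1) : J M nu D f ≤ 1 := by
  induction M generalizing f with
  | zero => exact h ∅
  | succ M ih =>
    have h1 : J (M + 1) nu D f ≤ tup (nu 0) (D 0) (fun _ => 1) := by
      refine tup_mono (nu 0) (D 0) fun A _ => ?_
      exact ih (fun i => nu i.succ) (fun i => D i.succ) fun B => h (A ∪ B)
    refine h1.trans (le_of_eq ?_)
    rw [tup_const, measure_univ, one_pow, mul_one]

end Pool.Agent.Helper94.B2
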