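import Mathlib
import Pool.Agent.Helper94.B2.St.J1
import Pool.Agent.Helper97.BG.St.P3
import Pool.Agent.Helper97.BG.St.P4
import Pool.Agent.Helper97.BG.St.P5

/-!
Project B2 (MP_8410f8_pr), piece J2: Poisson splitting over the cells.
-/

open MeasureTheory Set
open scoped ENNReal

namespace Pool.Agent.Helper94.B2

open Pool.Agent.Helper97.BG

variable {S : Type*} [MeasurableSpace S]

/-- `em (t • nu) = ofReal (exp (-t))` and `tup (t • nu) n f = t^n * tup nu n f`
(`tup_smul_measure`); `ENNReal.tsum_mul_left`. -/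
theorem Poi_smul_prob (t : ℝ≥0∞) (ht : t ≠ ∞) (nu : Measure S) [IsProbabilityMeasure nu]
    {f : Set S → ℝ≥0∞} (hf : MS f) : Poi (t • nu) f = ∑' n, po t n * tup nu n f := by
  unfold Poi Helper97.BG.em po
  rw [← ENNReal.tsum_mul_left]
  refine tsum_congr fun n => ?_
  rw [tup_smul_measure nu t ht hf n, Measure.smul_apply, measure_univ, smul_eq_mul, mul_one]
  ring

private lemma j2_zero {f : Set S → ℝ≥0∞} (hf : MS f) : Poi (0 : Measure S) f = f ∅ := by
  unfold Poi Helper97.BG.em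
  have h1 : ∀ n : ℕ, n ≠ 0 → ((n.factorial : ℝ≥0∞))⁻¹ * tup (0 : Measure S) n f = 0 := by
    intro n hn
    obtain ⟨m, rfl⟩ := Nat.exists_eq_succ_of_ne_zero hn
    rw [Nat.succ_eq_add_one, tup_succ _ hf, lintegral_zero_measure, mul_zero]
  rw [tsum_eq_single 0 h1, tup_zero]
  simp

private lemma j2_congr (mu : Measure S) {f g : Set S → ℝ≥0∞}
    (h : ∀ A : Set S, A.Finite → f A = g A) : Poi mu f = Poi mu g :=
  le_antisymm (Poi_mono mu fun A hA => (h A hA).le) (Poi_mono mu fun A hA => (h A hA).ge)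

private lemma j2_ms {ι : Type} [Countable ι] {g : ι → Set S → ℝ≥0∞} (c : ι → ℝ≥0∞)
    (hg : ∀ i, MS (g i)) : MS (fun A => ∑' i, c i * g i A) := by
  intro n
  exact Measurable.tsum fun i => (hg i n).const_mul _

private lemma j2_tup {ι : Type} [Countable ι] (mu : Measure S) (n : ℕ)
    {g : ι → Set S → ℝ≥0∞} (c : ι → ℝ≥0∞)
    (hg : ∀ i, MS (g i)) : tup mu n (fun A => ∑' i, c i * g i A) = ∑' i, c i * tup mu n (g i) := by
  unfold tup
  rw [lintegral_tsum fun i => ((hg i n).const_mul _).aemeasurable]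
  exact tsum_congr fun i => lintegral_const_mul _ (hg i n)

/-- Induction on `M`, for all `f`. `M = 0`: `Poi 0 f = f ∅` (`em 0 = 1`, and `tup 0 n f = 0` for
`n ≥ 1`, e.g. by `tup_succ`); the sum over `Fin 0 → ℕ` has one term. Step: `Fin.sum_univ_succ`,
`Poi_add_measure (t 0 • nu 0) (∑ i, t i.succ • nu i.succ)`, the induction hypothesis for
`fun B => f (A ∪ B)` (`MS_union_left` for finite `A`; use a version of `Poi` congruence on finite
sets, e.g. two applications of `Poi_mono`, or `Poi_smul_prob` and `lintegral_congr`),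
`Poi_smul_prob` for the measurable function `A ↦ ∑' D', .. * J M _ D' (fun B => f (A ∪ B))`
(`MS_J`, countable sum), interchange of `tup` and the countable sum (`lintegral_tsum`,
`lintegral_const_mul`), and `ℕ × (Fin M → ℕ) ≃ (Fin (M+1) → ℕ)` (`Fin.consEquiv`, `Fin.prod_univ_succ`,
`ENNReal.tsum_prod`). -/
theorem Poi_split_cells (M : ℕ) (t : Fin M → ℝ≥0∞) (ht : ∀ i, t i ≠ ∞) (nu : Fin M → Measure S)
    [∀ i, IsProbabilityMeasure (nu i)] {f : Set S → ℝ≥0∞} (hf : MS f) :
    Poi (∑ i, t i • nu i) f = ∑' D : Fin M → ℕ, (∏ i, po (t i) (D i)) * J M nu D f := by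
  induction M generalizing f with
  | zero =>
    rw [Finset.univ_eq_empty, Finset.sum_empty, j2_zero hf, tsum_eq_single default]
    · simp [J]
    · intro D hD
      exact absurd (Subsingleton.elim D default) hD
  | succ M ih =>
    have hfin : ∀ i, IsFiniteMeasure (t i • nu i) := fun i => Measure.smul_finite (nu i) (ht i)
    rw [Fin.sum_univ_succ, Poi_add_measure (t 0 • nu 0) (∑ i : Fin M, t i.succ • nu i.succ) hf]
    have h1 : ∀ A : Set S, A.Finite →
        Poi (∑ i : Fin M, t i.succ • nu i.succ) (fun B => f (A ∪ B)) =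
        ∑' D : Fin M → ℕ, (∏ i, po (t i.succ) (D i)) *
          J M (fun i => nu i.succ) D (fun B => f (A ∪ B)) := fun A hA =>
      ih (fun i => t i.succ) (fun i => ht i.succ) (fun i => nu i.succ) (MS_union_left hf hA)
    have hJ : ∀ D : Fin M → ℕ, MS (fun A => J M (fun i => nu i.succ) D (fun B => f (A ∪ B))) :=
      fun D => MS_J M (fun i => nu i.succ) D hf
    rw [j2_congr _ h1, Poi_smul_prob (t 0) (ht 0) (nu 0) (j2_ms _ hJ)]
    have h2 : ∀ n : ℕ, po (t 0) n * tup (nu 0) n (fun A => ∑' D : Fin M → ℕ,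
        (∏ i, po (t i.succ) (D i)) * J M (fun i => nu i.succ) D (fun B => f (A ∪ B))) =
        ∑' D : Fin M → ℕ, (∏ i, po (t i) ((Fin.cons n D : Fin (M + 1) → ℕ) i)) *
          J (M + 1) nu (Fin.cons n D) f := by
      intro n
      rw [j2_tup (nu 0) n _ hJ, ← ENNReal.tsum_mul_left]
      refine tsum_congr fun D => ?_
      rw [Fin.prod_univ_succ, ← mul_assoc]
      rfl
    rw [tsum_congr h2, ← ENNReal.tsum_prod, ← (Fin.consEquiv (fun _ : Fin (M + 1) => ℕ)).tsum_eq]
    rfl

end Pool.Agent.Helper94.B2
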