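import Mathlib
import Pool.Agent.Helper94.B2.St.J1

/-!
Project B2 (MP_8410f8_pr), piece J4: deleting the points of the cells of `W`.
-/

open MeasureTheory Set
open scoped ENNReal

namespace Pool.Agent.Helper94.B2

open Pool.Agent.Helper97.BG

variable {S : Type*} [MeasurableSpace S]

/-- Almost every tuple of `nu` has all its points in `E` (see the proof of
`Pool.Agent.Helper97.BG.tup_restrict_mono` in piece P6: `Measure.tendsto_eval_ae_ae`, `ae_all_iff`,
`lintegral_mono_ae`). -/
theorem tup_ae_mono (nu : Measure S) [IsProbabilityMeasure nu] {E : Set S}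
    (hE : ∀ᵐ x ∂nu, x ∈ E) (n : ℕ) {f g : Set S → ℝ≥0∞}
    (h : ∀ A : Set S, A.Finite → A ⊆ E → f A ≤ g A) : tup nu n f ≤ tup nu n g := by
  unfold tup
  apply lintegral_mono_ae
  have h3 : ∀ᵐ X ∂(Measure.pi fun _ : Fin n => nu), ∀ i, X i ∈ E := by
    rw [ae_all_iff]
    intro i
    exact (Measure.tendsto_eval_ae_ae (μ := fun _ : Fin n => nu) (i := i)).eventually hE
  filter_upwards [h3] with X hX
  apply h _ (Set.finite_range X)
  rintro _ ⟨i, rfl⟩
  exact hX i

open Classical in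
/-- Induction on `M`, for all `W`, `N`, `h`, `g`. `M = 0`: `A = B = ∅`. Step, if `0 ∈ W`: by
`tup_ae_mono` (`E = Bs 0`) it is enough that `J M _ _ (fun B => h (A' ∪ B)) ≤ J M _ _ g'` for finite
`A' ⊆ Bs 0`, where `g' = fun B => g (∅ ∪ B)`; this is the induction hypothesis for
`h' B = h (A' ∪ B)`: `h (A' ∪ (A ∪ B)) = h (A ∪ (A' ∪ B)) ≤ g A` because
`A' ∪ B ⊆ ⋃ i ∈ W, Bs i`. The outer integral of a constant over a probability measure is the
constant (`tup_const`), and on the right side the number of points in cell `0` is `0`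
(`tup_zero`). If `0 ∉ W`: `tup_mono` and the induction hypothesis for `h (A' ∪ ·)`,
`g (A' ∪ ·)`, `A'` finite: `h (A' ∪ (A ∪ B)) = h ((A' ∪ A) ∪ B) ≤ g (A' ∪ A)`. For the tail cells use
`W' = {i | i.succ ∈ W}`; `⋃ i ∈ W', Bs i.succ ⊆ ⋃ i ∈ W, Bs i`. -/
theorem J_del (M : ℕ) (nu : Fin M → Measure S) [∀ i, IsProbabilityMeasure (nu i)]
    (Bs : Fin M → Set S) (hBs : ∀ i, ∀ᵐ x ∂(nu i), x ∈ Bs i) (W : Set (Fin M)) (N : Fin M → ℕ)
    (h g : Set S → ℝ≥0∞)
    (hdel : ∀ A B : Set S, A.Finite → B.Finite → B ⊆ ⋃ i ∈ W, Bs i → h (A ∪ B) ≤ g A) :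
    J M nu N h ≤ J M nu (fun i => if i ∈ W then 0 else N i) g := by
  induction M generalizing h g with
  | zero =>
    have := hdel ∅ ∅ Set.finite_empty Set.finite_empty (Set.empty_subset _)
    rw [Set.union_empty] at this
    exact this
  | succ M ih =>
    have hsub : ∀ B : Set S, B ⊆ ⋃ i ∈ {i : Fin M | i.succ ∈ W}, Bs i.succ →
        B ⊆ ⋃ i ∈ W, Bs i := by
      intro B hB x hx
      have hx2 := hB hx
      simp only [Set.mem_iUnion] at hx2 ⊢
      obtain ⟨i, hi, hxi⟩ := hx2
      exact ⟨i.succ, hi, hxi⟩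
    by_cases h0 : (0 : Fin (M + 1)) ∈ W
    · show tup (nu 0) (N 0) (fun A' => J M (fun i => nu i.succ) (fun i => N i.succ)
          fun B => h (A' ∪ B)) ≤
        tup (nu 0) (if (0 : Fin (M + 1)) ∈ W then 0 else N 0) (fun A' =>
          J M (fun i => nu i.succ) (fun i => if i.succ ∈ W then 0 else N i.succ)
          fun B => g (A' ∪ B))
      rw [if_pos h0, tup_zero]
      refine (tup_ae_mono (nu 0) (hBs 0) (N 0) (g := fun _ =>
        J M (fun i => nu i.succ) (fun i => if i.succ ∈ W then 0 else N i.succ)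
          fun B => g (∅ ∪ B)) ?_).trans ?_
      · intro A' hA' hA'E
        refine ih (fun i => nu i.succ) (fun i => Bs i.succ) (fun i => hBs i.succ)
          {i | i.succ ∈ W} (fun i => N i.succ) (fun B => h (A' ∪ B)) (fun B => g (∅ ∪ B)) ?_
        intro A B hA hB hBW
        show h (A' ∪ (A ∪ B)) ≤ g (∅ ∪ A)
        rw [Set.union_left_comm, Set.empty_union]
        refine hdel A (A' ∪ B) hA (hA'.union hB) (Set.union_subset ?_ (hsub B hBW))
        intro x hx
        simp only [Set.mem_iUnion]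
        exact ⟨0, h0, hA'E hx⟩
      · rw [tup_const, measure_univ, one_pow, mul_one]
    · show tup (nu 0) (N 0) (fun A' => J M (fun i => nu i.succ) (fun i => N i.succ)
          fun B => h (A' ∪ B)) ≤
        tup (nu 0) (if (0 : Fin (M + 1)) ∈ W then 0 else N 0) (fun A' =>
          J M (fun i => nu i.succ) (fun i => if i.succ ∈ W then 0 else N i.succ)
          fun B => g (A' ∪ B))
      rw [if_neg h0]
      refine tup_mono (nu 0) (N 0) fun A' hA' => ?_
      refine ih (fun i => nu i.succ) (fun i => Bs i.succ) (fun i => hBs i.succ)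
        {i | i.succ ∈ W} (fun i => N i.succ) (fun B => h (A' ∪ B)) (fun B => g (A' ∪ B)) ?_
      intro A B hA hB hBW
      show h (A' ∪ (A ∪ B)) ≤ g (A' ∪ A)
      rw [← Set.union_assoc]
      exact hdel (A' ∪ A) B (hA'.union hA) hB (hsub B hBW)

end Pool.Agent.Helper94.B2
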