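import Mathlib
import Pool.Agent.Helper94.B2.Defs
import Pool.Agent.Helper97.BG.St.V1

/-!
Project B2 (MP_8410f8_pr), piece G2: the measure of caps.
-/

open MeasureTheory Set
open scoped ENNReal

namespace Pool.Agent.Helper94.B2

open Pool.Agent.Helper97.BG

/-- The measure of a closed cap of radius `r`, from `Pool.Agent.Helper97.BG.sig_ball` (piece V1) for
`ball z (2 r)` if `2 r ≤ 1` (the distance in `Sph d` is the norm of the difference), and from
`sig d univ = 1` (`sig_prob`) if `2 r > 1`; take `C = max (w 2^d) (2^d)`. -/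
theorem cap_le (d : ℕ) : ∃ C : ℝ, 1 ≤ C ∧ ∀ (z : Sph d) (r : ℝ), 0 < r →
    sig d {x : Sph d | ‖(x : V d) - z‖ ≤ r} ≤ ENNReal.ofReal (C * r ^ d) := by
  obtain ⟨v, w, _, hw, h⟩ := sig_ball d
  refine ⟨max (w * 2 ^ d) (2 ^ d), le_trans (one_le_pow₀ (by norm_num)) (le_max_right _ _), ?_⟩
  intro z r hr
  by_cases h2 : 2 * r ≤ 1
  · calc sig d {x : Sph d | ‖(x : V d) - z‖ ≤ r} ≤ sig d (Metric.ball z (2 * r)) := by
          apply measure_mono
          intro x hx
          rw [Metric.mem_ball, Subtype.dist_eq, dist_eq_norm]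
          have hx' : ‖(x : V d) - z‖ ≤ r := hx
          linarith
      _ ≤ ENNReal.ofReal (w * (2 * r) ^ d) := (h z (2 * r) (by linarith) h2).2
      _ ≤ ENNReal.ofReal (max (w * 2 ^ d) (2 ^ d) * r ^ d) := by
          apply ENNReal.ofReal_le_ofReal
          rw [mul_pow, ← mul_assoc]
          exact mul_le_mul_of_nonneg_right (le_max_left _ _) (by positivity)
  · calc sig d {x : Sph d | ‖(x : V d) - z‖ ≤ r} ≤ 1 := prob_le_one
      _ = ENNReal.ofReal 1 := ENNReal.ofReal_one.symm
      _ ≤ ENNReal.ofReal (max (w * 2 ^ d) (2 ^ d) * r ^ d) := by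
          apply ENNReal.ofReal_le_ofReal
          calc (1 : ℝ) ≤ (2 * r) ^ d := one_le_pow₀ (by linarith)
            _ = 2 ^ d * r ^ d := by rw [mul_pow]
            _ ≤ max (w * 2 ^ d) (2 ^ d) * r ^ d :=
              mul_le_mul_of_nonneg_right (le_max_right _ _) (by positivity)

end Pool.Agent.Helper94.B2
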