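import Mathlib
import Pool.Agent.Helper94.B2.St.G1
import Pool.Agent.Helper94.B2.St.G2

/-!
Project B2 (MP_8410f8_pr), piece G3: the cells.
-/

open MeasureTheory Set
open scoped ENNReal

namespace Pool.Agent.Helper94.B2

open Pool.Agent.Helper97.BG

/-- Cells of size `a`: take `z` from `exists_centres` with `r = a / 2`, and
`E i = {x | ‖x - z i‖ < a/2} \ ⋃ j < i, {x | ‖x - z j‖ < a/2}` (a measurable partition of the sphere,
`disjointed`-like). Put `t i = sig d (E i)` and `nu i = (t i)⁻¹ • (sig d).restrict (E i)` if `t i ≠ 0`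
and `nu i = dirac (z i)` if `t i = 0`. Then `t i • nu i = (sig d).restrict (E i)` in both cases and
the sum of the restrictions is `sig d` (`Measure.restrict_iUnion`, or check on measurable sets).
`C` is the constant of `cap_le` (`r = a/2 ≤ a`). -/
theorem exists_cells (d : ℕ) : ∃ C : ℝ, 1 ≤ C ∧ ∀ a : ℝ, 0 < a →
    ∃ (M : ℕ) (z : Fin M → Sph d) (t : Fin M → ℝ≥0∞) (nu : Fin M → Measure (Sph d)),
      (∀ i, IsProbabilityMeasure (nu i)) ∧
      (∀ i, ∀ᵐ x : Sph d ∂(nu i), ‖(x : V d) - z i‖ ≤ a / 2) ∧
      (∑ i, t i • nu i = sig d) ∧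
      (∀ i, t i ≤ ENNReal.ofReal (C * a ^ d)) ∧
      ∀ i, {j | i ≠ j ∧ ‖(z i : V d) + z j‖ ≤ 2 * a}.ncard ≤ 9 ^ (d + 1) := by
  classical
  obtain ⟨C, hC1, hC⟩ := cap_le d
  refine ⟨C, hC1, fun a ha => ?_⟩
  obtain ⟨M, z, hz, hcov⟩ := exists_centres d (r := a / 2) (by linarith)
  let U : Fin M → Set (Sph d) := fun j => {x | ‖(x : V d) - z j‖ < a / 2}
  have hU : ∀ j, MeasurableSet (U j) := by
    intro j
    refine (isOpen_lt ?_ continuous_const).measurableSet
    exact (continuous_subtype_val.sub continuous_const).norm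
  let E : Fin M → Set (Sph d) := fun i => U i ∩ ⋂ j : Fin M, ⋂ (_ : j < i), (U j)ᶜ
  have hE : ∀ i, MeasurableSet (E i) := fun i =>
    (hU i).inter (MeasurableSet.iInter fun j => MeasurableSet.iInter fun _ => (hU j).compl)
  have hdisj : ∀ i j, i < j → Disjoint (E i) (E j) := by
    intro i j hij
    rw [Set.disjoint_left]
    intro x hxi hxj
    have := Set.mem_iInter.1 (Set.mem_iInter.1 hxj.2 i) hij
    exact this hxi.1
  have hpd : Pairwise (Function.onFun Disjoint E) := by
    intro i j hij
    rcases lt_or_gt_of_ne hij with h | h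
    · exact hdisj i j h
    · exact (hdisj j i h).symm
  have hun : ⋃ i, E i = univ := by
    rw [Set.eq_univ_iff_forall]
    intro x
    obtain ⟨i, hi⟩ := hcov x
    have hne : {i : Fin M | x ∈ U i}.Nonempty := ⟨i, hi⟩
    have hwf : WellFounded ((· < ·) : Fin M → Fin M → Prop) := wellFounded_lt
    refine Set.mem_iUnion.2 ⟨hwf.min {i : Fin M | x ∈ U i} hne, hwf.min_mem _ hne, ?_⟩
    refine Set.mem_iInter.2 fun j => Set.mem_iInter.2 fun hj hx => ?_
    exact hwf.not_lt_min {i : Fin M | x ∈ U i} hx hj
  have hsum : ∑ i, (sig d).restrict (E i) = sig d := by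
    rw [← Measure.sum_fintype, ← Measure.restrict_iUnion hpd hE, hun, Measure.restrict_univ]
  let t : Fin M → ℝ≥0∞ := fun i => sig d (E i)
  let nu : Fin M → Measure (Sph d) := fun i =>
    if t i = 0 then Measure.dirac (z i) else (t i)⁻¹ • (sig d).restrict (E i)
  have htop : ∀ i, t i ≠ ⊤ := fun i => measure_ne_top _ _
  refine ⟨M, z, t, nu, ?_, ?_, ?_, ?_, fun i => degree_bound ha z hz i⟩
  · intro i
    by_cases h : t i = 0
    · simp only [nu, if_pos h]
      infer_instance
    · simp only [nu, if_neg h]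
      constructor
      rw [Measure.smul_apply, Measure.restrict_apply_univ, smul_eq_mul]
      exact ENNReal.inv_mul_cancel h (htop i)
  · intro i
    by_cases h : t i = 0
    · simp only [nu, if_pos h]
      have hm : MeasurableSet {x : Sph d | ‖(x : V d) - z i‖ ≤ a / 2} := by
        refine (isClosed_le ?_ continuous_const).measurableSet
        exact (continuous_subtype_val.sub continuous_const).norm
      rw [ae_dirac_iff hm, sub_self, norm_zero]
      linarith
    · simp only [nu, if_neg h]
      refine Measure.ae_smul_measure ?_ _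
      refine (ae_restrict_iff' (hE i)).2 (Filter.Eventually.of_forall fun x hx => ?_)
      exact le_of_lt hx.1
  · have h1 : ∀ i, t i • nu i = (sig d).restrict (E i) := by
      intro i
      by_cases h : t i = 0
      · rw [h, zero_smul]
        exact (Measure.restrict_eq_zero.2 h).symm
      · simp only [nu, if_neg h]
        rw [smul_smul, ENNReal.mul_inv_cancel h (htop i), one_smul]
    rw [Finset.sum_congr rfl fun i _ => h1 i]
    exact hsum
  · intro i
    have h1 : t i ≤ sig d {x : Sph d | ‖(x : V d) - z i‖ ≤ a / 2} :=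
      measure_mono fun x hx => by
        have hx1 : ‖(x : V d) - z i‖ < a / 2 := hx.1
        exact hx1.le
    refine h1.trans ((hC (z i) (a / 2) (by linarith)).trans (ENNReal.ofReal_le_ofReal ?_))
    have h2 : (a / 2) ^ d ≤ a ^ d := pow_le_pow_left₀ (by linarith) (by linarith) d
    exact mul_le_mul_of_nonneg_left h2 (by linarith)

end Pool.Agent.Helper94.B2
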