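import Mathlib
import Pool.Agent.Helper94.B2.Defs

/-!
Project B2 (MP_8410f8_pr), piece G4: deletable sets and one more colour.
-/

open MeasureTheory Set
open scoped ENNReal

namespace Pool.Agent.Helper94.B2

open Pool.Agent.Helper97.BG

variable {d : ℕ}

/-- Points near the centres of a set `W` of pairwise non-adjacent cells are never adjacent:
if `‖p - z i‖, ‖q - z j‖ ≤ a/2` and `‖p + q‖ < a` then `‖z i + z j‖ < 2 a`; for `i ≠ j` this
contradicts `hW`, and for `i = j` it says `2 < 2 a`, which contradicts `a < 1`. -/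
theorem cells_indep {M : ℕ} {a : ℝ} (ha1 : a < 1) (z : Fin M → Sph d) (W : Set (Fin M))
    (hW : ∀ u ∈ W, ∀ v ∈ W, ¬ (u ≠ v ∧ ‖(z u : V d) + z v‖ ≤ 2 * a)) (p q : Sph d)
    (hp : p ∈ ⋃ i ∈ W, {x : Sph d | ‖(x : V d) - z i‖ ≤ a / 2})
    (hq : q ∈ ⋃ i ∈ W, {x : Sph d | ‖(x : V d) - z i‖ ≤ a / 2}) : a ≤ ‖(p : V d) + q‖ := by
  by_contra hlt
  have hlt' : ‖(p : V d) + q‖ < a := not_le.1 hlt
  obtain ⟨i, hi, hpi⟩ := mem_iUnion₂.1 hp
  obtain ⟨j, hj, hqj⟩ := mem_iUnion₂.1 hq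
  have hpi' : ‖(p : V d) - z i‖ ≤ a / 2 := hpi
  have hqj' : ‖(q : V d) - z j‖ ≤ a / 2 := hqj
  have h1 : ‖(z i : V d) + z j‖ < 2 * a := by
    have h2 : (z i : V d) + z j = ((p : V d) + q) - (((p : V d) - z i) + ((q : V d) - z j)) := by
      abel
    have h3 : ‖(z i : V d) + z j‖ ≤ ‖(p : V d) + q‖ + (‖(p : V d) - z i‖ + ‖(q : V d) - z j‖) := by
      rw [h2]
      exact (norm_sub_le _ _).trans (add_le_add le_rfl (norm_add_le _ _))
    linarith
  by_cases hij : i = j
  · subst hij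
    have h4 : ‖(z i : V d) + z i‖ = 2 := by
      have h5 : ‖(z i : V d)‖ = 1 := norm_eq_of_mem_sphere (z i)
      rw [← two_smul ℝ, norm_smul, h5]
      norm_num
    rw [h4] at h1
    linarith
  · exact hW i hi j hj ⟨hij, h1.le⟩

/-- Colour the points of `B \ A` with the new colour `Fin.last k` and the points of `A` by
`Fin.castSucc (c u)`; no two points of `B` are adjacent. -/
theorem Col_union {a : ℝ} {k : ℕ} {A B : Set (Sph d)} (hA : Col a k A)
    (hB : ∀ p ∈ B, ∀ q ∈ B, a ≤ ‖(p : V d) + q‖) : Col a (k + 1) (A ∪ B) := by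
  classical
  obtain ⟨c, hc⟩ := hA
  refine ⟨fun u => if u ∈ A then Fin.castSucc (c u) else Fin.last k, ?_⟩
  intro u hu v hv huv
  by_cases hu' : u ∈ A
  · by_cases hv' : v ∈ A
    · simp only [hu', hv', if_true]
      exact fun h => hc u hu' v hv' huv (Fin.castSucc_injective k h)
    · simp only [hu', hv', if_true, if_false]
      exact (Fin.castSucc_lt_last (c u)).ne
  · by_cases hv' : v ∈ A
    · simp only [hu', hv', if_true, if_false]
      exact (Fin.castSucc_lt_last (c v)).ne'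
    · exact absurd huv (not_lt.2 (hB u (hu.resolve_left hu') v (hv.resolve_left hv')))

theorem Col_mono {a : ℝ} {k : ℕ} {A B : Set (Sph d)} (h : A ⊆ B) (hB : Col a k B) :
    Col a k A := by
  obtain ⟨c, hc⟩ := hB
  exact ⟨c, fun u hu v hv huv => hc u (h hu) v (h hv) huv⟩

end Pool.Agent.Helper94.B2
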