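import Mathlib
import Pool.Agent.Helper94.B2.Defs

/-!
Project B2 (MP_8410f8_pr), piece D1: the greedy set exists and is unique.
-/

namespace Pool.Agent.Helper94.B2

variable {M : ℕ}

private theorem d1_wf (w : Conf M) : WellFounded (fun u v : Fin M => key w v < key w u) := by
  have h1 : IsTrans (Fin M) (fun u v => key w v < key w u) := ⟨fun a b c hab hbc => hbc.trans hab⟩
  have h2 : Std.Irrefl (fun u v : Fin M => key w v < key w u) := ⟨fun a h => lt_irrefl _ h⟩
  exact Finite.wellFounded_of_trans_of_irrefl _

/-- Second components differ. -/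
theorem key_injective (w : Conf M) : Function.Injective (key w) := by
  intro u v h
  unfold key at h
  exact (Prod.mk.inj (toLex.injective h)).2

/-- Strong induction on the key (it takes finitely many values, so `>` is well founded on
`Fin M` through `key w`: use `Finite.wellFounded_of_trans_of_irrefl` or `WellFounded.onFun`, or
induction on the number of cells with a larger key): membership of `v` is determined by the
membership of the cells with a larger key. -/
theorem greedy_unique (H : Fin M → Fin M → Prop) (w : Conf M) {W W' : Set (Fin M)}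
    (h : IsGreedy H w W) (h' : IsGreedy H w W') : W = W' := by
  ext v
  induction v using (d1_wf w).induction with
  | _ v ih =>
    rw [h v, h' v]
    constructor
    · rintro ⟨h1, h2⟩
      exact ⟨h1, fun u hu hk hW' => h2 u hu hk ((ih u hk).2 hW')⟩
    · rintro ⟨h1, h2⟩
      exact ⟨h1, fun u hu hk hW => h2 u hu hk ((ih u hk).1 hW)⟩

/-- Well-founded recursion (`WellFounded.fix`, `WellFounded.fix_eq`) for the relation
`u < v` iff `key w v < key w u`. -/
theorem exists_greedy (H : Fin M → Fin M → Prop) (w : Conf M) : ∃ W, IsGreedy H w W := by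
  obtain ⟨F, hF⟩ : ∃ F : ∀ v : Fin M, (∀ u : Fin M, key w v < key w u → Prop) → Prop,
      F = fun v r => (w v).2 = true ∧ ∀ u, H v u → ∀ h : key w v < key w u, ¬ r u h := ⟨_, rfl⟩
  refine ⟨{v | (d1_wf w).fix F v}, fun v => ?_⟩
  change (d1_wf w).fix F v ↔ ((w v).2 = true ∧ ∀ u, H v u → key w v < key w u →
    ¬ (d1_wf w).fix F u)
  rw [(d1_wf w).fix_eq F v, hF]

theorem greedy_spec (H : Fin M → Fin M → Prop) (w : Conf M) : IsGreedy H w (greedy H w) := by
  unfold greedy
  rw [dif_pos (exists_greedy H w)]
  exact (exists_greedy H w).choose_spec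

theorem greedy_eq {H : Fin M → Fin M → Prop} {w : Conf M} {W : Set (Fin M)}
    (h : IsGreedy H w W) : greedy H w = W :=
  greedy_unique H w (greedy_spec H w) h

/-- If `u`, `v` are in the greedy set and adjacent then `u ≠ v`, so the keys are different, and the
cell with the smaller key contradicts `IsGreedy`. -/
theorem greedy_indep {H : Fin M → Fin M → Prop} (hsym : ∀ u v, H u v → H v u)
    (hirr : ∀ v, ¬ H v v) (w : Conf M) :
    ∀ u ∈ greedy H w, ∀ v ∈ greedy H w, ¬ H u v := by
  intro u hu v hv huv
  have hne : u ≠ v := by
    rintro rfl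
    exact hirr u huv
  have hk : key w u ≠ key w v := fun h => hne (key_injective w h)
  rcases lt_or_gt_of_ne hk with h1 | h1
  · exact ((greedy_spec H w u).1 hu).2 v huv h1 hv
  · exact ((greedy_spec H w v).1 hv).2 u (hsym u v huv) h1 hu

end Pool.Agent.Helper94.B2
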