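import Mathlib
import Pool.Agent.Helper94.B2.St.D1

/-!
Project B2 (MP_8410f8_pr), piece D2: surgery at a passive cell.
-/

namespace Pool.Agent.Helper94.B2

variable {M : ℕ}

/-- `greedy_eq`: the set `greedy H w` satisfies the equation for the new configuration: `v` is
passive before and after (so `v` is in neither set), all other cells and keys are unchanged, and a
neighbour equal to `v` never blocks. -/
theorem greedy_update_passive (H : Fin M → Fin M → Prop) (w : Conf M) (v : Fin M)
    (hv : (w v).2 = false) (n : ℕ) :
    greedy H (Function.update w v (n, false)) = greedy H w := by
  have hsp := greedy_spec H w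
  have hvn : v ∉ greedy H w := by
    intro h
    have := ((hsp v).1 h).1
    rw [hv] at this
    exact Bool.false_ne_true this
  apply greedy_eq
  intro x
  have hkey : ∀ y, y ≠ v → key (Function.update w v (n, false)) y = key w y := by
    intro y hy
    unfold key
    rw [Function.update_of_ne hy]
  by_cases hx : x = v
  · subst hx
    constructor
    · intro h
      exact absurd h hvn
    · rintro ⟨h, _⟩
      rw [Function.update_self] at h
      exact absurd h Bool.false_ne_true
  · rw [hsp x, Function.update_of_ne hx, hkey x hx]
    constructor
    · rintro ⟨h1, h2⟩
      refine ⟨h1, fun u hu hk => ?_⟩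
      by_cases huv : u = v
      · rw [huv]; exact hvn
      · rw [hkey u huv] at hk
        exact h2 u hu hk
    · rintro ⟨h1, h2⟩
      refine ⟨h1, fun u hu hk => ?_⟩
      by_cases huv : u = v
      · rw [huv]; exact hvn
      · exact h2 u hu (by rw [hkey u huv]; exact hk)

/-- `v` is not in the greedy set (passive), so `kept` at `v` is the occupation number. -/
theorem kept_update_passive (H : Fin M → Fin M → Prop) (w : Conf M) (v : Fin M)
    (hv : (w v).2 = false) (n : ℕ) :
    kept H (Function.update w v (n, false)) = Function.update (kept H w) v n := by
  have hsp := greedy_spec H w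
  have hvn : v ∉ greedy H w := by
    intro h
    have := ((hsp v).1 h).1
    rw [hv] at this
    exact Bool.false_ne_true this
  funext x
  unfold kept
  rw [greedy_update_passive H w v hv n]
  by_cases hx : x = v
  · subst hx
    rw [if_neg hvn, Function.update_self, Function.update_self]
  · rw [Function.update_of_ne hx, Function.update_of_ne hx]

end Pool.Agent.Helper94.B2
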