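import Mathlib
import Pool.Agent.Helper94.B2.St.D1

/-!
Project B2 (MP_8410f8_pr), piece D3: the surgery at an active blocked cell (the key point).
-/

namespace Pool.Agent.Helper94.B2

variable {M : ℕ}

theorem d3_surg_a (H : Fin M → Fin M → Prop) (w : Conf M) {v u x : Fin M}
    (h : x = v ∨ x = u) : surg H w v u x = (0, false) := by
  unfold surg
  rw [if_pos h]

theorem d3_surg_b (H : Fin M → Fin M → Prop) (w : Conf M) {v u x : Fin M}
    (h : ¬ (x = v ∨ x = u)) (h' : H u x ∧ key w x < key w u) :
    surg H w v u x = ((w x).1, false) := by
  unfold surg
  rw [if_neg h, if_pos h']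

theorem d3_surg_c (H : Fin M → Fin M → Prop) (w : Conf M) {v u x : Fin M}
    (h : ¬ (x = v ∨ x = u)) (h' : ¬ (H u x ∧ key w x < key w u)) :
    surg H w v u x = w x := by
  unfold surg
  rw [if_neg h, if_neg h']

/-- `greedy_eq`: check the equation of `IsGreedy H (surg H w v u)` for the set
`greedy H w \ {u}` at every cell `x`.
* `x = u`, `x = v`, and `x` with `H u x` and `key w x < key w u`: passive after the surgery; `v` is
  not in the greedy set by hypothesis, and `x` adjacent to `u` is not in it (`greedy_indep`).
* Other `x`: `surg H w v u x = w x`, so the type and the key of `x` are unchanged.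
  - If `x` is adjacent to `u` (then `key w u < key w x` by `key_injective`): `x` is not in the greedy
    set (adjacent to `u`). So `x` is passive, or there is `z` with `H x z`, `key w x < key w z`,
    `z` greedy. Then `z ≠ u` (its key is larger), `z ≠ v`, and `z` is not one of the cells made
    passive (those are adjacent to `u`, hence not greedy), so its key is unchanged and it blocks `x`
    also after the surgery.
  - If `x` is not adjacent to `u`: every neighbour `z` of `x` is `≠ u`; `z = v` is in neither set;
    for all other `z` the occupation number, hence the key, is unchanged, and the membership in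
    the two sets is the same. -/
theorem greedy_surg {H : Fin M → Fin M → Prop} (hsym : ∀ u v, H u v → H v u)
    (hirr : ∀ v, ¬ H v v) (w : Conf M) {v u : Fin M} (hv : v ∉ greedy H w)
    (hu : u ∈ greedy H w) :
    greedy H (surg H w v u) = greedy H w \ {u} := by
  refine greedy_eq fun x => ?_
  by_cases h1 : x = v ∨ x = u
  · have hs : (surg H w v u x).2 = false := by rw [d3_surg_a H w h1]
    constructor
    · rintro ⟨hx, hxu⟩
      rcases h1 with rfl | rfl
      · exact absurd hx hv
      · exact absurd rfl hxu
    · rintro ⟨hx, -⟩
      rw [hs] at hx
      exact absurd hx (by decide)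
  · by_cases h2 : H u x ∧ key w x < key w u
    · have hs : (surg H w v u x).2 = false := by rw [d3_surg_b H w h1 h2]
      constructor
      · rintro ⟨hx, -⟩
        exact absurd h2.1 (greedy_indep hsym hirr w u hu x hx)
      · rintro ⟨hx, -⟩
        rw [hs] at hx
        exact absurd hx (by decide)
    · have hs : surg H w v u x = w x := d3_surg_c H w h1 h2
      have hk : key (surg H w v u) x = key w x := by
        unfold key
        rw [hs]
      rw [hs, hk]
      constructor
      · rintro ⟨hx, -⟩
        refine ⟨((greedy_spec H w x).1 hx).1, fun z hz _ hzW => ?_⟩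
        exact greedy_indep hsym hirr w x hx z hzW.1 hz
      · rintro ⟨hx1, hx2⟩
        refine ⟨(greedy_spec H w x).2 ⟨hx1, fun z hz hzk hzW => ?_⟩, fun h => h1 (Or.inr h)⟩
        by_cases hzu : z = u
        · subst hzu
          exact h2 ⟨hsym _ _ hz, hzk⟩
        · have hzv : z ≠ v := by
            rintro rfl
            exact hv hzW
          have h1z : ¬ (z = v ∨ z = u) := by
            rintro (h | h)
            · exact hzv h
            · exact hzu h
          have h2z : ¬ (H u z ∧ key w z < key w u) := fun h =>
            greedy_indep hsym hirr w u hu z hzW h.1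
          have hkz : key (surg H w v u) z = key w z := by
            unfold key
            rw [d3_surg_c H w h1z h2z]
          exact hx2 z hz (by rw [hkz]; exact hzk) ⟨hzW, hzu⟩

/-- At `u`: `kept H w u = 0` since `u` is greedy, and the cell is empty afterwards. At `v`: both are
`0`. At the cells made passive: not greedy before (adjacent to `u`) and not after, with the same
occupation number. All other cells: same membership and the same occupation number. -/
theorem kept_surg {H : Fin M → Fin M → Prop} (hsym : ∀ u v, H u v → H v u)
    (hirr : ∀ v, ¬ H v v) (w : Conf M) {v u : Fin M} (hv : v ∉ greedy H w)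
    (hu : u ∈ greedy H w) :
    kept H (surg H w v u) = Function.update (kept H w) v 0 := by
  funext x
  have hg := greedy_surg hsym hirr w hv hu
  by_cases hxv : x = v
  · subst hxv
    rw [Function.update_self]
    unfold kept
    rw [d3_surg_a H w (Or.inl rfl)]
    split_ifs <;> rfl
  · rw [Function.update_of_ne hxv]
    by_cases hxu : x = u
    · subst hxu
      have e1 : kept H w x = 0 := by
        unfold kept
        rw [if_pos hu]
      rw [e1]
      unfold kept
      rw [d3_surg_a H w (Or.inr rfl)]
      split_ifs <;> rfl
    · have h1 : ¬ (x = v ∨ x = u) := by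
        rintro (h | h)
        · exact hxv h
        · exact hxu h
      have e1 : (surg H w v u x).1 = (w x).1 := by
        by_cases h2 : H u x ∧ key w x < key w u
        · rw [d3_surg_b H w h1 h2]
        · rw [d3_surg_c H w h1 h2]
      have e2 : x ∈ greedy H (surg H w v u) ↔ x ∈ greedy H w := by
        rw [hg]
        exact ⟨fun h => h.1, fun h => ⟨h, hxu⟩⟩
      unfold kept
      by_cases h3 : x ∈ greedy H w
      · rw [if_pos (e2.2 h3), if_pos h3]
      · rw [if_neg (fun h => h3 (e2.1 h)), if_neg h3, e1]

end Pool.Agent.Helper94.B2
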