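import Mathlib
import Pool.Agent.Helper94.B2.St.D3

/-!
Project B2 (MP_8410f8_pr), piece D4: weights of the surgery and the sum over blocked configurations.
-/

open scoped ENNReal

namespace Pool.Agent.Helper94.B2

open Pool.Agent.Helper97.BG

variable {M : ℕ}

/-- An active cell costs at most `(s⁻¹)^m` times the passive one when `N ≤ m`:
`1 - s^N ≤ 1 = (s⁻¹)^N * s^N ≤ (s⁻¹)^m * s^N` (`s ≤ 1`, `s ≠ 0`). -/
theorem cw_active_le (s t : ℝ≥0∞) (hs0 : s ≠ 0) (hs1 : s ≤ 1) (N m : ℕ) (h : N ≤ m) :
    cw s t (N, true) ≤ (s⁻¹) ^ m * cw s t (N, false) := by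
  have hst : s ≠ ∞ := ne_top_of_le_ne_top ENNReal.one_ne_top hs1
  have h1 : (1 : ℝ≥0∞) ≤ s⁻¹ := ENNReal.one_le_inv.2 hs1
  have h2 : (1 : ℝ≥0∞) ≤ (s⁻¹) ^ m * s ^ N := by
    calc (1 : ℝ≥0∞) = (s⁻¹ * s) ^ N := by rw [ENNReal.inv_mul_cancel hs0 hst, one_pow]
      _ = (s⁻¹) ^ N * s ^ N := by rw [mul_pow]
      _ ≤ (s⁻¹) ^ m * s ^ N := by gcongr
  unfold cw
  simp only [if_true, Bool.false_eq_true, if_false]
  calc t ^ N * ((N.factorial : ℝ≥0∞))⁻¹ * (1 - s ^ N)
      ≤ t ^ N * ((N.factorial : ℝ≥0∞))⁻¹ * ((s⁻¹) ^ m * s ^ N) := by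
        gcongr
        exact tsub_le_self.trans h2
    _ = (s⁻¹) ^ m * (t ^ N * ((N.factorial : ℝ≥0∞))⁻¹ * s ^ N) := by ring

theorem d4_cw_le (s t : ℝ≥0∞) (hs1 : s ≤ 1) (p : ℕ × Bool) :
    cw s t p ≤ t ^ p.1 * ((p.1.factorial : ℝ≥0∞))⁻¹ := by
  unfold cw
  have h : (if p.2 = true then 1 - s ^ p.1 else s ^ p.1) ≤ 1 := by
    split_ifs
    · exact tsub_le_self
    · exact pow_le_one₀ zero_le hs1
  calc t ^ p.1 * ((p.1.factorial : ℝ≥0∞))⁻¹ * (if p.2 = true then 1 - s ^ p.1 else s ^ p.1)
      ≤ t ^ p.1 * ((p.1.factorial : ℝ≥0∞))⁻¹ * 1 := by gcongr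
    _ = _ := mul_one _

theorem d4_cw_zero (s t : ℝ≥0∞) : cw s t (0, false) = 1 := by
  simp [cw]

/-- Weight of `w` against the weight of `surg H w v u`. The cell `v` has the factor
`cw s (t v) (j, true) ≤ t v ^ j / j!`, the cell `u` (it is active, being greedy) the factor
`≤ t u ^ m / m!` with `m = (w u).1`, each of the at most `Dg` cells `x` with `H u x` and
`key w x < key w u` (so `(w x).1 ≤ m`) costs at most `(s⁻¹)^m` (`cw_active_le`; cells that were
passive do not change), and the emptied cells have weight `1` afterwards. -/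
theorem wt_surg (H : Fin M → Fin M → Prop) (Dg : ℕ)
    (hdeg : ∀ v, {u | H v u}.ncard ≤ Dg) (s : ℝ≥0∞) (hs0 : s ≠ 0) (hs1 : s ≤ 1)
    (t : Fin M → ℝ≥0∞) (w : Conf M) {v u : Fin M} (huv : u ≠ v) :
    wt s t w ≤ (t v ^ (w v).1 * (((w v).1.factorial : ℝ≥0∞))⁻¹) *
      ((t u ^ (w u).1 * (((w u).1.factorial : ℝ≥0∞))⁻¹) * (s⁻¹) ^ (Dg * (w u).1)) *
        wt s t (surg H w v u) := by
  classical
  have h1 : (1 : ℝ≥0∞) ≤ s⁻¹ := ENNReal.one_le_inv.2 hs1
  have h1m : (1 : ℝ≥0∞) ≤ (s⁻¹) ^ (w u).1 := one_le_pow₀ h1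
  set A : ℝ≥0∞ := t v ^ (w v).1 * (((w v).1.factorial : ℝ≥0∞))⁻¹ with hA
  set B : ℝ≥0∞ := t u ^ (w u).1 * (((w u).1.factorial : ℝ≥0∞))⁻¹ with hB
  set b : Fin M → ℝ≥0∞ := fun x => if H u x then (s⁻¹) ^ (w u).1 else 1 with hb
  have hb1 : ∀ x, 1 ≤ b x := by
    intro x
    simp only [hb]
    split_ifs
    · exact h1m
    · exact le_rfl
  have hpt : ∀ x, cw s (t x) (w x) ≤
      ((if x = v then A else 1) * (if x = u then B else 1) * b x) *
        cw s (t x) (surg H w v u x) := by
    intro x
    by_cases hxv : x = v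
    · subst hxv
      have hs : surg H w x u x = (0, false) := by simp [surg]
      rw [hs, d4_cw_zero, if_pos rfl, if_neg (Ne.symm huv)]
      calc cw s (t x) (w x) ≤ A := d4_cw_le s (t x) hs1 (w x)
        _ = A * 1 * 1 * 1 := by ring
        _ ≤ A * 1 * b x * 1 := by gcongr; exact hb1 x
    · by_cases hxu : x = u
      · subst hxu
        have hs : surg H w v x x = (0, false) := by simp [surg]
        rw [hs, d4_cw_zero, if_pos rfl, if_neg hxv]
        calc cw s (t x) (w x) ≤ B := d4_cw_le s (t x) hs1 (w x)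
          _ = 1 * B * 1 * 1 := by ring
          _ ≤ 1 * B * b x * 1 := by gcongr; exact hb1 x
      · rw [if_neg hxv, if_neg hxu, one_mul, one_mul]
        by_cases hc : H u x ∧ key w x < key w u
        · have hs : surg H w v u x = ((w x).1, false) := by
            simp [surg, hxv, hxu, hc]
          have hN : (w x).1 ≤ (w u).1 := by
            have h := hc.2
            unfold key at h
            rw [Prod.Lex.toLex_lt_toLex] at h
            rcases h with h | h
            · exact h.le
            · exact h.1.le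
          have hbx : b x = (s⁻¹) ^ (w u).1 := by simp [hb, hc.1]
          rw [hs, hbx]
          rcases hw : w x with ⟨N, bb⟩
          rw [hw] at hN
          cases bb
          · calc cw s (t x) (N, false) = 1 * cw s (t x) (N, false) := (one_mul _).symm
              _ ≤ _ := by gcongr
          · exact cw_active_le s (t x) hs0 hs1 N _ hN
        · have hs : surg H w v u x = w x := by
            simp only [surg]
            rw [if_neg (by tauto), if_neg hc]
          rw [hs]
          calc cw s (t x) (w x) = 1 * cw s (t x) (w x) := (one_mul _).symm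
            _ ≤ _ := by gcongr; exact hb1 x
  have hprodb : ∏ x, b x ≤ (s⁻¹) ^ (Dg * (w u).1) := by
    simp only [hb]
    rw [Finset.prod_ite, Finset.prod_const_one, mul_one, Finset.prod_const, ← pow_mul]
    refine pow_le_pow_right₀ h1 ?_
    rw [mul_comm]
    refine Nat.mul_le_mul_right _ ?_
    refine le_trans (le_of_eq ?_) (hdeg u)
    rw [Set.ncard_eq_toFinset_card']
    congr 1
    ext x
    simp
  unfold wt
  calc ∏ x, cw s (t x) (w x)
      ≤ ∏ x, ((if x = v then A else 1) * (if x = u then B else 1) * b x) *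
        cw s (t x) (surg H w v u x) := Finset.prod_le_prod' fun x _ => hpt x
    _ = A * B * (∏ x, b x) * ∏ x, cw s (t x) (surg H w v u x) := by
        rw [Finset.prod_mul_distrib, Finset.prod_mul_distrib, Finset.prod_mul_distrib]
        simp
    _ ≤ A * B * ((s⁻¹) ^ (Dg * (w u).1)) * ∏ x, cw s (t x) (surg H w v u x) := by gcongr
    _ = _ := by ring

/-- The sum over the configurations in which `v` is active with `j` points and not greedy while its
neighbour `u` is greedy with a larger key. The map `w ↦ (surg H w v u, m, X)` with `m = (w u).1` and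
`X = {x | H u x ∧ key w x < key w u ∧ (w x).2 = true ∧ x ≠ v}` is injective on these configurations
(`w v = (j, true)`, `w u = (m, true)`, `w x = ((surg H w v u x).1, true)` on `X`, and
`w x = surg H w v u x` elsewhere), `m ≥ j` by the key inequality, `X ⊆ {x | H u x}` has at most
`2 ^ Dg` values, `kept_surg` gives `kept H (surg H w v u) = update D v 0`, and the weights are
compared by `wt_surg`. Use `ENNReal.tsum_comp_le_tsum_of_injective` (or
`ENNReal.tsum_le_tsum_comp_of_surjective`) on the subtype of these configurations, and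
`ENNReal.tsum_prod`, `tsum_fintype` for the sum over `(w', m, X)`. -/
theorem active_sum {H : Fin M → Fin M → Prop} (hsym : ∀ u v, H u v → H v u)
    (hirr : ∀ v, ¬ H v v) (Dg : ℕ) (hdeg : ∀ v, {u | H v u}.ncard ≤ Dg)
    (s : ℝ≥0∞) (hs0 : s ≠ 0) (hs1 : s ≤ 1) (t : Fin M → ℝ≥0∞) (D : Fin M → ℕ)
    (v u : Fin M) (j : ℕ) :
    (∑' w : Conf M, ind (kept H w = Function.update D v j ∧ w v = (j, true) ∧
        v ∉ greedy H w ∧ u ∈ greedy H w ∧ key w v < key w u) * wt s t w) ≤
      (t v ^ j * ((j.factorial : ℝ≥0∞))⁻¹) *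
        (2 ^ Dg * ∑' m : ℕ, (t u * (s⁻¹) ^ Dg) ^ (m + j) * (((m + j).factorial : ℝ≥0∞))⁻¹) *
          qq H s t (Function.update D v 0) := by
  classical
  set P : Conf M → Prop := fun w => kept H w = Function.update D v j ∧ w v = (j, true) ∧
        v ∉ greedy H w ∧ u ∈ greedy H w ∧ key w v < key w u with hP
  set Nb : Finset (Fin M) := Finset.univ.filter (fun x => H u x) with hNb
  set C : ℝ≥0∞ := t v ^ j * ((j.factorial : ℝ≥0∞))⁻¹ with hC
  set g : ℕ → ℝ≥0∞ := fun m => (t u * (s⁻¹) ^ Dg) ^ (m + j) * (((m + j).factorial : ℝ≥0∞))⁻¹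
    with hg
  set q : Conf M → ℝ≥0∞ := fun w => ind (kept H w = Function.update D v 0) * wt s t w with hq
  set r : Finset (Fin M) → ℝ≥0∞ := fun X => ind (X ⊆ Nb) with hr
  set X : Conf M → Finset (Fin M) := fun w => Finset.univ.filter
    (fun x => H u x ∧ key w x < key w u ∧ (w x).2 = true ∧ x ≠ v) with hX
  set Φ : {w : Conf M // P w} → Conf M × ℕ × Finset (Fin M) :=
    fun w => (surg H w.1 v u, (w.1 u).1 - j, X w.1) with hΦ
  have hge : ∀ w : {w : Conf M // P w}, j ≤ (w.1 u).1 := by
    rintro ⟨w, hw1, hw2, hw3, hw4, hw5⟩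
    unfold key at hw5
    rw [Prod.Lex.toLex_lt_toLex] at hw5
    have : (w v).1 = j := by rw [hw2]
    simp only at hw5 ⊢
    rcases hw5 with h | h
    · omega
    · omega
  have huv : ∀ w : {w : Conf M // P w}, u ≠ v := by
    rintro ⟨w, hw1, hw2, hw3, hw4, hw5⟩ h
    exact hw3 (h ▸ hw4)
  have hact : ∀ w : {w : Conf M // P w}, (w.1 u).2 = true := by
    rintro ⟨w, hw1, hw2, hw3, hw4, hw5⟩
    exact ((greedy_spec H w u).1 hw4).1
  have hinj : Function.Injective Φ := by
    intro w1 w2 h12
    have e1 : surg H w1.1 v u = surg H w2.1 v u := congrArg Prod.fst h12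
    have e2 : (w1.1 u).1 - j = (w2.1 u).1 - j := congrArg (fun p => p.2.1) h12
    have e3 : X w1.1 = X w2.1 := congrArg (fun p => p.2.2) h12
    apply Subtype.ext
    funext x
    by_cases hxv : x = v
    · rw [hxv, w1.2.2.1, w2.2.2.1]
    · by_cases hxu : x = u
      · rw [hxu]
        have h1 := hge w1
        have h2 := hge w2
        refine Prod.ext (by omega) ?_
        rw [hact w1, hact w2]
      · have e1x := congrFun e1 x
        by_cases hx : x ∈ X w1.1
        · have hx2 : x ∈ X w2.1 := e3 ▸ hx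
          simp only [hX, Finset.mem_filter, Finset.mem_univ, true_and] at hx hx2
          have s1 : surg H w1.1 v u x = ((w1.1 x).1, false) := by
            simp only [surg]
            rw [if_neg (by tauto), if_pos ⟨hx.1, hx.2.1⟩]
          have s2 : surg H w2.1 v u x = ((w2.1 x).1, false) := by
            simp only [surg]
            rw [if_neg (by tauto), if_pos ⟨hx2.1, hx2.2.1⟩]
          rw [s1, s2] at e1x
          have e1y : (w1.1 x).1 = (w2.1 x).1 := by
            have := congrArg Prod.fst e1x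
            simpa using this
          refine Prod.ext e1y ?_
          rw [hx.2.2.1, hx2.2.2.1]
        · have hx2 : x ∉ X w2.1 := fun h => hx (e3.symm ▸ h)
          have key' : ∀ w : Conf M, x ∉ X w → surg H w v u x = w x := by
            intro w hw
            simp only [hX, Finset.mem_filter, Finset.mem_univ, true_and, not_and] at hw
            simp only [surg]
            rw [if_neg (by tauto)]
            split_ifs with hc
            · have : (w x).2 = false := by
                by_contra hb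
                have hb' : (w x).2 = true := by simpa using hb
                exact hw hc.1 hc.2 hb' hxv
              exact Prod.ext rfl this.symm
            · rfl
          rw [← key' w1.1 hx, ← key' w2.1 hx2]
          exact e1x
  have hL : (∑' w : Conf M, ind (P w) * wt s t w) = ∑' w : {w : Conf M // P w}, wt s t w.1 := by
    have h := tsum_subtype {w : Conf M | P w} (fun w => wt s t w)
    have h2 : (fun w => ind (P w) * wt s t w) = Set.indicator {w : Conf M | P w}
        (fun w => wt s t w) := by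
      funext w
      by_cases hw : P w
      · simp [ind, hw, Set.indicator]
      · simp [ind, hw, Set.indicator]
    rw [h2, ← h]
    rfl
  have hpt : ∀ w : {w : Conf M // P w}, wt s t w.1 ≤
      (fun p : Conf M × ℕ × Finset (Fin M) => C * (q p.1 * (g p.2.1 * r p.2.2))) (Φ w) := by
    intro w
    have hw := w.2
    have h1 := wt_surg H Dg hdeg s hs0 hs1 t w.1 (huv w)
    have h2 : (w.1 v).1 = j := by rw [hw.2.1]
    rw [h2] at h1
    have h3 : kept H (surg H w.1 v u) = Function.update D v 0 := by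
      rw [kept_surg hsym hirr w.1 hw.2.2.1 hw.2.2.2.1, hw.1, Function.update_idem]
    have h4 : q (surg H w.1 v u) = wt s t (surg H w.1 v u) := by
      simp [hq, ind, h3]
    have h5 : r (X w.1) = 1 := by
      have : X w.1 ⊆ Nb := by
        intro x hx
        simp only [hX, Finset.mem_filter, Finset.mem_univ, true_and] at hx
        simp only [hNb, Finset.mem_filter, Finset.mem_univ, true_and]
        exact hx.1
      simp [hr, ind, this]
    have h6 : (w.1 u).1 - j + j = (w.1 u).1 := Nat.sub_add_cancel (hge w)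
    simp only [hΦ]
    rw [h4, h5]
    simp only [hg]
    rw [h6]
    refine h1.trans (le_of_eq ?_)
    rw [mul_pow, ← pow_mul]
    ring
  have hsumr : ∑' Y : Finset (Fin M), r Y ≤ 2 ^ Dg := by
    rw [tsum_fintype]
    have h1 : ∑ Y : Finset (Fin M), r Y = ((Nb.powerset.card : ℕ) : ℝ≥0∞) := by
      have hr' : ∀ Y, r Y = if Y ∈ Nb.powerset then 1 else 0 := by
        intro Y
        by_cases h : Y ⊆ Nb
        · simp [hr, ind, h]
        · simp [hr, ind, h]
      rw [Finset.sum_congr rfl (fun Y _ => hr' Y)]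
      rw [Finset.sum_ite_mem, Finset.univ_inter, Finset.sum_const, nsmul_eq_mul, mul_one]
    rw [h1, Finset.card_powerset]
    push_cast
    refine pow_le_pow_right₀ (by norm_num) ?_
    refine le_trans (le_of_eq ?_) (hdeg u)
    rw [Set.ncard_eq_toFinset_card']
    congr 1
    ext x
    simp [hNb]
  calc (∑' w : Conf M, ind (P w) * wt s t w)
      = ∑' w : {w : Conf M // P w}, wt s t w.1 := hL
    _ ≤ ∑' w : {w : Conf M // P w},
          (fun p : Conf M × ℕ × Finset (Fin M) => C * (q p.1 * (g p.2.1 * r p.2.2))) (Φ w) :=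
        ENNReal.tsum_le_tsum hpt
    _ ≤ ∑' p : Conf M × ℕ × Finset (Fin M), C * (q p.1 * (g p.2.1 * r p.2.2)) :=
        ENNReal.tsum_comp_le_tsum_of_injective hinj _
    _ = C * ((∑' w, q w) * ((∑' m, g m) * ∑' Y, r Y)) := by
        rw [ENNReal.tsum_mul_left, ENNReal.tsum_prod' ]
        congr 1
        simp_rw [ENNReal.tsum_mul_left]
        rw [ENNReal.tsum_mul_right]
        congr 1
        rw [ENNReal.tsum_prod']
        simp_rw [ENNReal.tsum_mul_left]
        rw [ENNReal.tsum_mul_right]
    _ ≤ C * ((∑' w, q w) * ((∑' m, g m) * 2 ^ Dg)) := by gcongr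
    _ = _ := by
        have : (∑' w, q w) = qq H s t (Function.update D v 0) := rfl
        rw [this]
        ring

end Pool.Agent.Helper94.B2
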