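import Mathlib
import Pool.Agent.Helper94.B2.St.D2
import Pool.Agent.Helper94.B2.St.D4

/-!
Project B2 (MP_8410f8_pr), piece D5: the ratio inequality (Lemma 1).
-/

open scoped ENNReal

namespace Pool.Agent.Helper94.B2

open Pool.Agent.Helper97.BG

variable {M : ℕ}

/-- `∑ y^(m+j)/(m+j)! ≤ y^j e^y ≤ 3 y^j` for `y ≤ 1` (`(m+j)! ≥ m!`, `e ≤ 3`). -/
theorem exp_tail_le (y : ℝ≥0∞) (hy : y ≤ 1) (j : ℕ) :
    (∑' m : ℕ, y ^ (m + j) * (((m + j).factorial : ℝ≥0∞))⁻¹) ≤ 3 * y ^ j := by
  have h2 : ∀ m : ℕ, (2 : ℕ) ^ m ≤ (m + 1).factorial := by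
    intro m
    induction m with
    | zero => simp
    | succ m ih =>
      rw [Nat.factorial_succ, pow_succ]
      nlinarith [Nat.factorial_pos (m + 1)]
  have h3 : (∑' m : ℕ, ((m.factorial : ℝ≥0∞))⁻¹) ≤ 3 := by
    rw [tsum_eq_zero_add' ENNReal.summable]
    have h4 : (∑' m : ℕ, (((m + 1).factorial : ℝ≥0∞))⁻¹) ≤ ∑' m : ℕ, (2⁻¹ : ℝ≥0∞) ^ m := by
      apply ENNReal.tsum_le_tsum
      intro m
      rw [← ENNReal.inv_pow]
      apply ENNReal.inv_le_inv.2
      exact_mod_cast h2 m
    rw [ENNReal.tsum_geometric, ENNReal.one_sub_inv_two, inv_inv] at h4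
    calc ((Nat.factorial 0 : ℝ≥0∞))⁻¹ + ∑' m : ℕ, (((m + 1).factorial : ℝ≥0∞))⁻¹
        ≤ 1 + 2 := by
          apply add_le_add _ h4
          simp
      _ = 3 := by norm_num
  calc (∑' m : ℕ, y ^ (m + j) * (((m + j).factorial : ℝ≥0∞))⁻¹)
      ≤ ∑' m : ℕ, ((m.factorial : ℝ≥0∞))⁻¹ * y ^ j := by
        apply ENNReal.tsum_le_tsum
        intro m
        rw [mul_comm]
        apply mul_le_mul'
        · apply ENNReal.inv_le_inv.2
          exact_mod_cast Nat.factorial_le (Nat.le_add_right m j)
        · rw [pow_add]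
          calc y ^ m * y ^ j ≤ 1 * y ^ j := by
                gcongr
                exact pow_le_one' hy m
            _ = y ^ j := one_mul _
    _ = (∑' m : ℕ, ((m.factorial : ℝ≥0∞))⁻¹) * y ^ j := ENNReal.tsum_mul_right
    _ ≤ 3 * y ^ j := by gcongr

/-- Passive part: `w ↦ update w v (0, false)` is injective on the configurations with
`w v = (j, false)`, `kept_update_passive`, and the weight of the cell changes from
`t^j/j! * s^j` to `1`. -/
theorem passive_sum (H : Fin M → Fin M → Prop) (s : ℝ≥0∞) (t : Fin M → ℝ≥0∞)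
    (D : Fin M → ℕ) (v : Fin M) (j : ℕ) :
    (∑' w : Conf M, ind (kept H w = Function.update D v j ∧ w v = (j, false)) * wt s t w) ≤
      (t v ^ j * ((j.factorial : ℝ≥0∞))⁻¹ * s ^ j) * qq H s t (Function.update D v 0) := by
  set c : ℝ≥0∞ := t v ^ j * ((j.factorial : ℝ≥0∞))⁻¹ * s ^ j with hc
  set A : Set (Conf M) := {w | w v = (j, false)} with hA
  have hwt : ∀ w ∈ A, wt s t w = c * wt s t (Function.update w v (0, false)) := by
    intro w hw
    have hw' : w v = (j, false) := hw
    unfold wt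
    rw [← Finset.mul_prod_erase Finset.univ (fun x => cw s (t x) (w x)) (Finset.mem_univ v),
      ← Finset.mul_prod_erase Finset.univ
        (fun x => cw s (t x) (Function.update w v (0, false) x)) (Finset.mem_univ v)]
    have e1 : cw s (t v) (w v) = c := by
      rw [hw', hc]
      simp [cw]
    have e2 : cw s (t v) (Function.update w v (0, false) v) = 1 := by
      rw [Function.update_self]
      simp [cw]
    have e3 : ∏ x ∈ Finset.univ.erase v, cw s (t x) (Function.update w v (0, false) x) =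
        ∏ x ∈ Finset.univ.erase v, cw s (t x) (w x) := by
      apply Finset.prod_congr rfl
      intro x hx
      rw [Function.update_of_ne (Finset.ne_of_mem_erase hx)]
    rw [e1, e2, e3, one_mul]
  have hinj : Function.Injective (fun w : A => Function.update (w : Conf M) v (0, false)) := by
    intro w w' h
    apply Subtype.ext
    funext x
    by_cases hx : x = v
    · rw [hx]
      have h1 : (w : Conf M) v = (j, false) := w.2
      have h2 : (w' : Conf M) v = (j, false) := w'.2
      rw [h1, h2]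
    · have := congrFun h x
      simpa [Function.update_of_ne hx] using this
  have hterm : (∑' w : Conf M,
      ind (kept H w = Function.update D v j ∧ w v = (j, false)) * wt s t w) =
      ∑' w : A, ind (kept H (w : Conf M) = Function.update D v j ∧ (w : Conf M) v = (j, false)) *
        wt s t (w : Conf M) := by
    rw [tsum_subtype A (fun w : Conf M =>
      ind (kept H w = Function.update D v j ∧ w v = (j, false)) * wt s t w)]
    apply tsum_congr
    intro w
    by_cases hw : w ∈ A
    · rw [Set.indicator_of_mem hw]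
    · rw [Set.indicator_of_notMem hw]
      have : ¬ (kept H w = Function.update D v j ∧ w v = (j, false)) := fun h => hw h.2
      simp [ind, this]
  rw [hterm]
  calc (∑' w : A, ind (kept H (w : Conf M) = Function.update D v j ∧ (w : Conf M) v = (j, false)) *
        wt s t (w : Conf M))
      ≤ ∑' w : A, c * ((fun w' : Conf M => ind (kept H w' = Function.update D v 0) * wt s t w')
          (Function.update (w : Conf M) v (0, false))) := by
        apply ENNReal.tsum_le_tsum
        intro w
        have hw : (w : Conf M) v = (j, false) := w.2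
        rw [hwt w w.2]
        by_cases hk : kept H (w : Conf M) = Function.update D v j
        · have hk2 : kept H (Function.update (w : Conf M) v (0, false)) =
              Function.update D v 0 := by
            rw [kept_update_passive H w v (by rw [hw]) 0, hk, Function.update_idem]
          simp only [ind, hk, hk2, hw, and_self, if_true, one_mul]
          exact le_rfl
        · have : ¬ (kept H (w : Conf M) = Function.update D v j ∧ (w : Conf M) v = (j, false)) :=
            fun h => hk h.1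
          simp only [ind, this, if_false, zero_mul]
          exact zero_le
    _ = c * ∑' w : A, ((fun w' : Conf M => ind (kept H w' = Function.update D v 0) * wt s t w')
          (Function.update (w : Conf M) v (0, false))) := ENNReal.tsum_mul_left
    _ ≤ c * qq H s t (Function.update D v 0) := by
        gcongr
        exact ENNReal.tsum_comp_le_tsum_of_injective hinj
          (fun w' : Conf M => ind (kept H w' = Function.update D v 0) * wt s t w')

/-- Lemma 1 with `s = 1/4` and `δ = 1/4`. Since `j ≥ 1`, `kept H w v = j` means `v ∉ greedy H w` and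
`(w v).1 = j`. Split into passive and active `v`. In the active case `v ∉ greedy H w` gives a
neighbour `u` in the greedy set with a larger key; sum `active_sum` over the at most `Dg`
neighbours `u` of `v` (bound the sum over `u : Fin M` of the terms with `H v u`; for the other `u`
nothing is needed). With `y = t u * 4^Dg ≤ 1` (from `ht`) `exp_tail_le` gives the total
`(t v^j/j!) * Dg * 2^Dg * 3 * y^j ≤ (t v^j/j!) * (1/4)^j`, because
`(3 (Dg+1) 2^Dg) * y ≤ 1/4` and `j ≥ 1`; and `(1/4)^j + (1/4)^j ≤ (1/2)^j`. -/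
theorem qq_update_le {H : Fin M → Fin M → Prop} (hsym : ∀ u v, H u v → H v u)
    (hirr : ∀ v, ¬ H v v) (Dg : ℕ) (hdeg : ∀ v, {u | H v u}.ncard ≤ Dg)
    (t : Fin M → ℝ≥0∞) (ht : ∀ v, t v * (4 ^ Dg * (12 * (Dg + 1) * 2 ^ Dg)) ≤ 1)
    (D : Fin M → ℕ) (v : Fin M) (j : ℕ) (hj : 1 ≤ j) :
    qq H 4⁻¹ t (Function.update D v j) ≤
      (t v * 2⁻¹) ^ j * ((j.factorial : ℝ≥0∞))⁻¹ * qq H 4⁻¹ t (Function.update D v 0) := by
  classical
  set D0 : Fin M → ℕ := Function.update D v 0 with hD0
  set Q := qq H 4⁻¹ t D0 with hQ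
  set P : ℝ≥0∞ := t v ^ j * ((j.factorial : ℝ≥0∞))⁻¹ with hP
  -- pointwise
  have hpt : ∀ w : Conf M, ind (kept H w = Function.update D v j) * wt 4⁻¹ t w ≤
      ind (kept H w = Function.update D v j ∧ w v = (j, false)) * wt 4⁻¹ t w +
      ∑ u ∈ Finset.univ.filter (fun u => H v u),
        ind (kept H w = Function.update D v j ∧ w v = (j, true) ∧
          v ∉ greedy H w ∧ u ∈ greedy H w ∧ key w v < key w u) * wt 4⁻¹ t w := by
    intro w
    by_cases hk : kept H w = Function.update D v j
    · have hkv : kept H w v = j := by rw [hk, Function.update_self]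
      have hvg : v ∉ greedy H w := by
        intro hv
        have : kept H w v = 0 := by simp [kept, hv]
        omega
      have hw1 : (w v).1 = j := by
        have : kept H w v = (w v).1 := by simp [kept, hvg]
        omega
      rcases hb : (w v).2 with _ | _
      · have hwv : w v = (j, false) := Prod.ext hw1 hb
        have h1 : ind (kept H w = Function.update D v j) = 1 := by simp [ind, hk]
        have h2 : ind (kept H w = Function.update D v j ∧ w v = (j, false)) = 1 := by
          simp [ind, hk, hwv]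
        rw [h1, h2]
        exact le_self_add
      · have hwv : w v = (j, true) := Prod.ext hw1 hb
        have hs := (greedy_spec H w v).not.1 hvg
        push Not at hs
        obtain ⟨u, hu1, hu2, hu3⟩ := hs hb
        have h1 : ind (kept H w = Function.update D v j) = 1 := by simp [ind, hk]
        have h2 : ind (kept H w = Function.update D v j ∧ w v = (j, true) ∧
          v ∉ greedy H w ∧ u ∈ greedy H w ∧ key w v < key w u) = 1 := by
          exact if_pos ⟨hk, hwv, hvg, hu3, hu2⟩
        refine le_trans ?_ le_add_self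
        rw [h1]
        have h3 := Finset.single_le_sum (f := fun u => ind (kept H w = Function.update D v j ∧
          w v = (j, true) ∧ v ∉ greedy H w ∧ u ∈ greedy H w ∧ key w v < key w u) * wt 4⁻¹ t w)
          (s := Finset.univ.filter (fun u => H v u)) (fun _ _ => zero_le)
          (Finset.mem_filter.2 ⟨Finset.mem_univ u, hu1⟩)
        simp only [h2] at h3
        exact h3
    · have h1 : ind (kept H w = Function.update D v j) = 0 := by simp [ind, hk]
      rw [h1, zero_mul]
      exact zero_le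
  -- the sum
  have hsum : qq H 4⁻¹ t (Function.update D v j) ≤
      (P * (4⁻¹) ^ j) * Q + ∑ u ∈ Finset.univ.filter (fun u => H v u),
        P * (2 ^ Dg * ∑' m : ℕ, (t u * ((4⁻¹ : ℝ≥0∞)⁻¹) ^ Dg) ^ (m + j) *
          (((m + j).factorial : ℝ≥0∞))⁻¹) * Q := by
    unfold qq
    refine (ENNReal.tsum_le_tsum hpt).trans ?_
    rw [ENNReal.tsum_add]
    apply add_le_add
    · exact passive_sum H 4⁻¹ t D v j
    · rw [Summable.tsum_finsetSum (fun _ _ => ENNReal.summable)]
      apply Finset.sum_le_sum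
      intro u _
      exact active_sum hsym hirr Dg hdeg 4⁻¹ (by simp) (by simp) t D v u j
  -- numerics
  have hcard : ((Finset.univ.filter (fun u => H v u)).card : ℝ≥0∞) ≤ Dg := by
    have h1 := hdeg v
    have h2 : {u | H v u}.ncard = (Finset.univ.filter (fun u => H v u)).card := by
      rw [← Set.ncard_coe_finset]
      congr 1
      ext u
      simp
    rw [h2] at h1
    exact_mod_cast h1
  have hnum : ∀ u, (2 : ℝ≥0∞) ^ Dg * (∑' m : ℕ, (t u * ((4⁻¹ : ℝ≥0∞)⁻¹) ^ Dg) ^ (m + j) *
          (((m + j).factorial : ℝ≥0∞))⁻¹) * Dg ≤ (4⁻¹) ^ j := by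
    intro u
    rw [inv_inv]
    set y : ℝ≥0∞ := t u * 4 ^ Dg with hy
    set K : ℝ≥0∞ := 3 * (Dg + 1) * 2 ^ Dg with hK
    have hK1 : 1 ≤ K := by
      have : ((1 : ℕ) : ℝ≥0∞) ≤ ((3 * (Dg + 1) * 2 ^ Dg : ℕ) : ℝ≥0∞) := by
        apply Nat.cast_le.2
        have := Nat.one_le_two_pow (n := Dg)
        nlinarith
      push_cast at this
      exact this
    have hyK : y * (K * 4) ≤ 1 := by
      have := ht u
      calc y * (K * 4) = t u * (4 ^ Dg * (12 * (Dg + 1) * 2 ^ Dg)) := by
            rw [hy, hK]; ring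
        _ ≤ 1 := this
    have hy1 : y ≤ 1 := by
      calc y = y * 1 := (mul_one y).symm
        _ ≤ y * (K * 4) := by
          gcongr
          calc (1 : ℝ≥0∞) = 1 * 1 := (mul_one 1).symm
            _ ≤ K * 4 := by
              gcongr
              norm_num
        _ ≤ 1 := hyK
    have hKy : K * y ≤ 4⁻¹ := by
      rw [ENNReal.le_inv_iff_mul_le]
      calc K * y * 4 = y * (K * 4) := by ring
        _ ≤ 1 := hyK
    calc (2 : ℝ≥0∞) ^ Dg * (∑' m : ℕ, y ^ (m + j) * (((m + j).factorial : ℝ≥0∞))⁻¹) * Dg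
        ≤ 2 ^ Dg * (3 * y ^ j) * (Dg + 1) := by
          gcongr
          · exact exp_tail_le y hy1 j
          · exact le_self_add
      _ = K * y ^ j := by rw [hK]; ring
      _ ≤ K ^ j * y ^ j := by
          gcongr
          calc K = K ^ 1 := (pow_one K).symm
            _ ≤ K ^ j := pow_le_pow_right₀ hK1 hj
      _ = (K * y) ^ j := (mul_pow K y j).symm
      _ ≤ (4⁻¹) ^ j := by gcongr
  have hact : (∑ u ∈ Finset.univ.filter (fun u => H v u),
        P * (2 ^ Dg * ∑' m : ℕ, (t u * ((4⁻¹ : ℝ≥0∞)⁻¹) ^ Dg) ^ (m + j) *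
          (((m + j).factorial : ℝ≥0∞))⁻¹) * Q) ≤ P * (4⁻¹) ^ j * Q := by
    by_cases hDg : Dg = 0
    · have : (Finset.univ.filter (fun u => H v u)).card = 0 := by
        rw [hDg] at hcard
        simpa using hcard
      rw [Finset.card_eq_zero] at this
      rw [this, Finset.sum_empty]
      exact zero_le
    · have hDg0 : (Dg : ℝ≥0∞) ≠ 0 := by exact_mod_cast hDg
      have hDgt : (Dg : ℝ≥0∞) ≠ ⊤ := ENNReal.natCast_ne_top Dg
      have hone : ∀ u, P * (2 ^ Dg * ∑' m : ℕ, (t u * ((4⁻¹ : ℝ≥0∞)⁻¹) ^ Dg) ^ (m + j) *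
          (((m + j).factorial : ℝ≥0∞))⁻¹) * Q ≤ P * ((4⁻¹) ^ j / Dg) * Q := by
        intro u
        gcongr
        rw [ENNReal.le_div_iff_mul_le (Or.inl hDg0) (Or.inl hDgt)]
        exact hnum u
      calc _ ≤ ∑ u ∈ Finset.univ.filter (fun u => H v u), P * ((4⁻¹) ^ j / Dg) * Q :=
            Finset.sum_le_sum fun u _ => hone u
        _ = ((Finset.univ.filter (fun u => H v u)).card : ℝ≥0∞) * (P * ((4⁻¹) ^ j / Dg) * Q) := by
            rw [Finset.sum_const, nsmul_eq_mul]
        _ ≤ Dg * (P * ((4⁻¹) ^ j / Dg) * Q) := by gcongr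
        _ = P * (Dg * ((4⁻¹) ^ j / Dg)) * Q := by ring
        _ = P * (4⁻¹) ^ j * Q := by rw [ENNReal.mul_div_cancel hDg0 hDgt]
  have hhalf : (4⁻¹ : ℝ≥0∞) ^ j + (4⁻¹) ^ j ≤ (2⁻¹) ^ j := by
    have h4 : (4⁻¹ : ℝ≥0∞) = 2⁻¹ * 2⁻¹ := by
      rw [← ENNReal.mul_inv (Or.inl (by norm_num)) (Or.inl (by norm_num))]
      norm_num
    have h5 : (2⁻¹ : ℝ≥0∞) ^ j ≤ 2⁻¹ := by
      calc (2⁻¹ : ℝ≥0∞) ^ j ≤ (2⁻¹) ^ 1 := pow_le_pow_right_of_le_one' (by simp) hj
        _ = 2⁻¹ := pow_one _
    calc (4⁻¹ : ℝ≥0∞) ^ j + (4⁻¹) ^ j = (2⁻¹ ^ j + 2⁻¹ ^ j) * 2⁻¹ ^ j := by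
          rw [h4, mul_pow]; ring
      _ ≤ (2⁻¹ + 2⁻¹) * 2⁻¹ ^ j := by gcongr
      _ = 2⁻¹ ^ j := by rw [ENNReal.inv_two_add_inv_two, one_mul]
  calc qq H 4⁻¹ t (Function.update D v j)
      ≤ P * (4⁻¹) ^ j * Q + P * (4⁻¹) ^ j * Q := hsum.trans (by gcongr)
    _ = P * ((4⁻¹) ^ j + (4⁻¹) ^ j) * Q := by ring
    _ ≤ P * (2⁻¹) ^ j * Q := by gcongr
    _ = (t v * 2⁻¹) ^ j * ((j.factorial : ℝ≥0∞))⁻¹ * Q := by
        rw [hP, mul_pow]; ring

end Pool.Agent.Helper94.B2
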