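import Mathlib
import Pool.Agent.Helper94.B2.St.D7

/-!
Project B2 (MP_8410f8_pr), piece D8: domination for functions of several occupation numbers.
-/

open scoped ENNReal

namespace Pool.Agent.Helper94.B2

/-- cons for functions to the natural numbers -/
private def d8cs {M : ℕ} (j : ℕ) (D : Fin M → ℕ) : Fin (M + 1) → ℕ :=
  Fin.cons (α := fun _ => ℕ) j D

private theorem d8_zero {M : ℕ} (j : ℕ) (D : Fin M → ℕ) : d8cs j D 0 = j := rfl

private theorem d8_succ {M : ℕ} (j : ℕ) (D : Fin M → ℕ) (v : Fin M) :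
    d8cs j D v.succ = D v := by simp [d8cs]

private theorem d8_tsum {M : ℕ} (G : (Fin (M + 1) → ℕ) → ℝ≥0∞) :
    ∑' D, G D = ∑' D' : Fin M → ℕ, ∑' j, G (d8cs j D') := by
  rw [← (Fin.consEquiv (fun _ : Fin (M + 1) => ℕ)).tsum_eq, ENNReal.tsum_prod',
    ENNReal.tsum_comm]
  rfl

private theorem d8_update_zero {M : ℕ} (j i : ℕ) (D : Fin M → ℕ) :
    Function.update (d8cs j D) 0 i = d8cs i D := by
  funext v
  refine Fin.cases ?_ (fun w => ?_) v
  · rw [Function.update_self, d8_zero]
  · rw [Function.update_of_ne (Fin.succ_ne_zero w), d8_succ, d8_succ]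

private theorem d8_update_succ {M : ℕ} (j i : ℕ) (D : Fin M → ℕ) (v : Fin M) :
    Function.update (d8cs j D) v.succ i = d8cs j (Function.update D v i) := by
  funext x
  refine Fin.cases ?_ (fun w => ?_) x
  · rw [Function.update_of_ne (Fin.succ_ne_zero v).symm, d8_zero, d8_zero]
  · rw [d8_succ]
    by_cases h : w = v
    · subst h; simp
    · rw [Function.update_of_ne (fun h' => h (Fin.succ_injective _ h')), d8_succ,
        Function.update_of_ne h]

private theorem d8_mono {M : ℕ} {i j : ℕ} {D E : Fin M → ℕ} (hij : i ≤ j) (h : D ≤ E) :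
    d8cs i D ≤ d8cs j E := by
  intro x
  refine Fin.cases ?_ (fun w => ?_) x
  · exact hij
  · rw [d8_succ, d8_succ]; exact h w

/-- Induction on `M`. `M = 0`: one point. Step: `Fin (M+1) → ℕ ≃ ℕ × (Fin M → ℕ)` (`Fin.consEquiv`),
so the left side is `∑' D', ∑' j, q (cons j D') * F (cons j D')`, and by `oneD` (hypothesis `h` for
the cell `0`) at most `∑' D', (∑' j, q (cons j D')) * ∑' i, p 0 i * F (cons i D')`
`= ∑' i, p 0 i * ∑' D', q' D' * F (cons i D')` with `q' D' = ∑' j, q (cons j D')`. The marginal `q'`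
satisfies the hypothesis for the cells `1, ..., M` (sum the inequality for `q` over `j`:
`∑' i, q' (update D' v (i + J)) = ∑' j, ∑' i, q (update (cons j D') v.succ (i + J))`). Apply the
induction hypothesis to `q'` and `F (cons i ·)` for each `i`; `∑' D', q' D' = ∑' D, q D`. -/
theorem domination (M : ℕ) (q : (Fin M → ℕ) → ℝ≥0∞) (p : Fin M → ℕ → ℝ≥0∞)
    (hp : ∀ v, ∑' j, p v j = 1)
    (h : ∀ (D : Fin M → ℕ) (v : Fin M) (J : ℕ),
      ∑' j, q (Function.update D v (j + J)) ≤
        (∑' j, q (Function.update D v j)) * ∑' j, p v (j + J))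
    (F : (Fin M → ℕ) → ℝ≥0∞) (hF : Monotone F) (hF1 : ∀ D, F D ≤ 1) :
    ∑' D, q D * F D ≤ (∑' D, q D) * ∑' D, (∏ v, p v (D v)) * F D := by
  induction M with
  | zero =>
    have hu : ∀ G : (Fin 0 → ℕ) → ℝ≥0∞, ∑' D, G D = G default := fun G =>
      tsum_eq_single default (fun b hb => absurd (Subsingleton.elim _ _) hb)
    rw [hu, hu, hu]
    simp
  | succ M ih =>
    have h0 : ∀ D' : Fin M → ℕ, ∑' j, q (d8cs j D') * F (d8cs j D') ≤
        (∑' j, q (d8cs j D')) * ∑' i, p 0 i * F (d8cs i D') := by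
      intro D'
      refine oneD (fun j => q (d8cs j D')) (p 0) (fun j => F (d8cs j D')) (hp 0) ?_
        (fun j => hF1 _) ?_
      · intro i j hij
        exact hF (d8_mono hij le_rfl)
      · intro J
        have := h (d8cs 0 D') 0 J
        simpa only [d8_update_zero] using this
    have h1 : ∀ i, ∑' D' : Fin M → ℕ, (∑' j, q (d8cs j D')) * F (d8cs i D') ≤
        (∑' D' : Fin M → ℕ, ∑' j, q (d8cs j D')) *
          ∑' D' : Fin M → ℕ, (∏ v, p (Fin.succ v) (D' v)) * F (d8cs i D') := by
      intro i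
      refine ih (fun D' => ∑' j, q (d8cs j D')) (fun v => p v.succ) (fun v => hp v.succ) ?_
        (fun D' => F (d8cs i D')) ?_ (fun D' => hF1 _)
      · intro D v J
        calc ∑' j, ∑' k, q (d8cs k (Function.update D v (j + J)))
            = ∑' k, ∑' j, q (Function.update (d8cs k D) v.succ (j + J)) := by
              rw [ENNReal.tsum_comm]
              simp only [d8_update_succ]
          _ ≤ ∑' k, (∑' j, q (Function.update (d8cs k D) v.succ j)) *
                ∑' j, p v.succ (j + J) :=
              ENNReal.tsum_le_tsum fun k => h (d8cs k D) v.succ J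
          _ = (∑' k, ∑' j, q (Function.update (d8cs k D) v.succ j)) *
                ∑' j, p v.succ (j + J) := ENNReal.tsum_mul_right
          _ = (∑' j, ∑' k, q (d8cs k (Function.update D v j))) * ∑' j, p v.succ (j + J) := by
              rw [ENNReal.tsum_comm]
              simp only [d8_update_succ]
      · intro D E hDE
        exact hF (d8_mono le_rfl hDE)
    rw [d8_tsum (fun D => q D * F D), d8_tsum q, d8_tsum (fun D => (∏ v, p v (D v)) * F D)]
    calc ∑' D' : Fin M → ℕ, ∑' j, q (d8cs j D') * F (d8cs j D')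
        ≤ ∑' D' : Fin M → ℕ, (∑' j, q (d8cs j D')) * ∑' i, p 0 i * F (d8cs i D') :=
          ENNReal.tsum_le_tsum h0
      _ = ∑' D' : Fin M → ℕ, ∑' i, p 0 i * ((∑' j, q (d8cs j D')) * F (d8cs i D')) := by
          refine tsum_congr fun D' => ?_
          rw [← ENNReal.tsum_mul_left]
          refine tsum_congr fun i => ?_
          ring
      _ = ∑' i, p 0 i * ∑' D' : Fin M → ℕ, (∑' j, q (d8cs j D')) * F (d8cs i D') := by
          rw [ENNReal.tsum_comm]
          exact tsum_congr fun i => ENNReal.tsum_mul_left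
      _ ≤ ∑' i, p 0 i * ((∑' D' : Fin M → ℕ, ∑' j, q (d8cs j D')) *
            ∑' D' : Fin M → ℕ, (∏ v, p (Fin.succ v) (D' v)) * F (d8cs i D')) :=
          ENNReal.tsum_le_tsum fun i => mul_le_mul_right (h1 i) _
      _ = (∑' D' : Fin M → ℕ, ∑' j, q (d8cs j D')) * ∑' i, ∑' D' : Fin M → ℕ,
            p 0 i * ((∏ v, p (Fin.succ v) (D' v)) * F (d8cs i D')) := by
          rw [← ENNReal.tsum_mul_left]
          refine tsum_congr fun i => ?_
          rw [ENNReal.tsum_mul_left]
          ring
      _ = (∑' D' : Fin M → ℕ, ∑' j, q (d8cs j D')) *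
            ∑' D' : Fin M → ℕ, ∑' j, (∏ v, p v (d8cs j D' v)) * F (d8cs j D') := by
          congr 1
          rw [ENNReal.tsum_comm]
          refine tsum_congr fun D' => tsum_congr fun i => ?_
          rw [Fin.prod_univ_succ, d8_zero]
          simp only [d8_succ]
          ring

end Pool.Agent.Helper94.B2
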