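import Mathlib
import Pool.Agent.Helper94.B2.St.D5
import Pool.Agent.Helper94.B2.St.D6
import Pool.Agent.Helper94.B2.St.D8

/-!
Project B2 (MP_8410f8_pr), piece D9: the discrete main inequality.
-/

open scoped ENNReal

namespace Pool.Agent.Helper94.B2

open Pool.Agent.Helper97.BG

variable {M : ℕ}

/-- With `s = 1/4` and `E = ∏ v, ofReal (exp (-(t v).toReal))` the left side is
`E * ∑' N, (∏ t^N/N!) * h N = E * ∑' w, wt w * h (counts w)` (`sum_wt_counts`)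
`≤ E * ∑' w, wt w * g (kept H w) = E * ∑' D, qq D * g D` (`sum_qq`)
`≤ E * (∑' D, qq D) * ∑' D, (∏ v, po (3/4 * t v) (D v)) * g D` (`domination` with
`p v = po (3/4 * t v)`, `po_tsum`, and `tail_of_ratio` applied to `q j = qq (update D v j)`, whose
ratio hypothesis is `qq_update_le`; `t v ≤ 1/2` from `ht`). Finally `E * ∑' D, qq D = 1`:
`∑' D, qq D = ∑' w, wt w = ∏ v, ∑' n, t^n/n!` (`sum_qq` and `sum_wt_counts` with the constant
function `1`, `tsum_prod_pi`), and `e^{-t} * ∑' n, t^n/n! = 1` by `po_tsum`. -/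
theorem discrete_main {H : Fin M → Fin M → Prop} (hsym : ∀ u v, H u v → H v u)
    (hirr : ∀ v, ¬ H v v) (Dg : ℕ) (hdeg : ∀ v, {u | H v u}.ncard ≤ Dg)
    (t : Fin M → ℝ≥0∞) (ht : ∀ v, t v * (4 ^ Dg * (12 * (Dg + 1) * 2 ^ Dg)) ≤ 1)
    (g h : (Fin M → ℕ) → ℝ≥0∞) (hg : Monotone g) (hg1 : ∀ D, g D ≤ 1)
    (hdel : ∀ w : Conf M, h (fun v => (w v).1) ≤ g (kept H w)) :
    ∑' N : Fin M → ℕ, (∏ v, po (t v) (N v)) * h N ≤
      ∑' D : Fin M → ℕ, (∏ v, po (3 / 4 * t v) (D v)) * g D := by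
  have ht2 : ∀ v, t v ≤ 2⁻¹ := by
    intro v
    have h1 : (2 : ℝ≥0∞) ≤ 4 ^ Dg * (12 * (Dg + 1) * 2 ^ Dg) := by
      have h2 : (1 : ℝ≥0∞) ≤ 4 ^ Dg := one_le_pow_of_one_le' (by norm_num) _
      have h3 : (1 : ℝ≥0∞) ≤ 2 ^ Dg := one_le_pow_of_one_le' (by norm_num) _
      have h4 : (1 : ℝ≥0∞) ≤ (Dg : ℝ≥0∞) + 1 := le_add_self
      calc (2 : ℝ≥0∞) ≤ 12 := by norm_num
        _ = 1 * (12 * 1 * 1) := by norm_num
        _ ≤ 4 ^ Dg * (12 * (Dg + 1) * 2 ^ Dg) := by gcongr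
    have h2 : t v * 2 ≤ 1 := (mul_le_mul_right h1 _).trans (ht v)
    rw [ENNReal.le_inv_iff_mul_le]
    exact h2
  have htop : ∀ v, t v ≠ ∞ := fun v => ne_top_of_le_ne_top (by norm_num) (ht2 v)
  set E : ℝ≥0∞ := ∏ v, ENNReal.ofReal (Real.exp (-(t v).toReal)) with hE
  have hprod : ∀ N : Fin M → ℕ, ∏ v, po (t v) (N v) =
      E * ∏ v, t v ^ N v * (((N v).factorial : ℝ≥0∞))⁻¹ := by
    intro N
    rw [hE, ← Finset.prod_mul_distrib]
    rfl
  have h1 : ∑' N : Fin M → ℕ, (∏ v, po (t v) (N v)) * h N =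
      E * ∑' w : Conf M, wt 4⁻¹ t w * h (fun v => (w v).1) := by
    rw [sum_wt_counts 4⁻¹ (by rw [ENNReal.inv_le_one]; norm_num) t h, ← ENNReal.tsum_mul_left]
    refine tsum_congr fun N => ?_
    rw [hprod, mul_assoc]
  have h2 : ∑' w : Conf M, wt 4⁻¹ t w * h (fun v => (w v).1) ≤
      ∑' D : Fin M → ℕ, qq H 4⁻¹ t D * g D := by
    rw [sum_qq]
    refine ENNReal.tsum_le_tsum fun w => ?_
    exact mul_le_mul_right (hdel w) _
  have h3 : ∑' D : Fin M → ℕ, qq H 4⁻¹ t D * g D ≤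
      (∑' D : Fin M → ℕ, qq H 4⁻¹ t D) * ∑' D : Fin M → ℕ, (∏ v, po (3 / 4 * t v) (D v)) * g D := by
    refine domination M (qq H 4⁻¹ t) (fun v => po (3 / 4 * t v)) (fun v => ?_) ?_ g hg hg1
    · refine po_tsum _ (ENNReal.mul_ne_top ?_ (htop v))
      exact ENNReal.div_ne_top (by norm_num) (by norm_num)
    · intro D v J
      exact tail_of_ratio (t v) (ht2 v) (fun j => qq H 4⁻¹ t (Function.update D v j))
        (fun j hj => qq_update_le hsym hirr Dg hdeg t ht D v j hj) J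
  have h4 : E * ∑' D : Fin M → ℕ, qq H 4⁻¹ t D = 1 := by
    have h5 : ∑' D : Fin M → ℕ, qq H 4⁻¹ t D = ∏ v, ∑' n : ℕ, t v ^ n * ((n.factorial : ℝ≥0∞))⁻¹ := by
      have h6 := sum_qq H 4⁻¹ t (fun _ => 1)
      have h7 := sum_wt_counts (M := M) 4⁻¹ (by rw [ENNReal.inv_le_one]; norm_num) t (fun _ => 1)
      simp only [mul_one] at h6 h7
      rw [h6, h7]
      exact tsum_prod_pi fun v n => t v ^ n * ((n.factorial : ℝ≥0∞))⁻¹
    rw [h5, hE, ← Finset.prod_mul_distrib]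
    refine Finset.prod_eq_one fun v _ => ?_
    rw [← ENNReal.tsum_mul_left]
    exact po_tsum (t v) (htop v)
  rw [h1]
  calc E * ∑' w : Conf M, wt 4⁻¹ t w * h (fun v => (w v).1)
      ≤ E * ((∑' D : Fin M → ℕ, qq H 4⁻¹ t D) *
          ∑' D : Fin M → ℕ, (∏ v, po (3 / 4 * t v) (D v)) * g D) :=
        mul_le_mul_right (h2.trans h3) _
    _ = ∑' D : Fin M → ℕ, (∏ v, po (3 / 4 * t v) (D v)) * g D := by
        rw [← mul_assoc, h4, one_mul]

end Pool.Agent.Helper94.B2
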