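import Mathlib
import Pool.Agent.Helper94.B2.St.J1

/-!
Project B2 (MP_8410f8_pr), piece J3: `J` is nondecreasing in the numbers of points.
-/

open MeasureTheory Set
open scoped ENNReal

namespace Pool.Agent.Helper94.B2

open Pool.Agent.Helper97.BG

variable {S : Type*} [MeasurableSpace S]

/-- `tup_succ`: `tup nu (n+1) f = ∫ tup nu n (f (insert x ·)) dnu(x) ≥ ∫ tup nu n f dnu = tup nu n f`
(`tup_mono`, `lintegral_const`); then `monotone_nat_of_le_succ`. -/
theorem tup_mono_nat (nu : Measure S) [IsProbabilityMeasure nu] {f : Set S → ℝ≥0∞} (hf : MS f)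
    (hmono : ∀ A B, A ⊆ B → f A ≤ f B) : Monotone fun n => tup nu n f := by
  refine monotone_nat_of_le_succ fun n => ?_
  change tup nu n f ≤ tup nu (n + 1) f
  rw [tup_succ nu hf n]
  calc tup nu n f = ∫⁻ _x, tup nu n f ∂nu := by rw [lintegral_const, measure_univ, mul_one]
    _ ≤ ∫⁻ x, tup nu n (fun A => f (insert x A)) ∂nu :=
        lintegral_mono fun x => tup_mono nu n fun A _ => hmono A _ (Set.subset_insert x A)

/-- Induction on `M` (for all increasing `f` with `MS f`): change the number in cell `0` by
`tup_mono_nat` (the function `A ↦ J M _ _ (fun B => f (A ∪ B))` is increasing by `J_mono` and `MS` by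
`MS_J`), and the other numbers by the induction hypothesis for `fun B => f (A ∪ B)`, `A` finite
(`MS_union_left`), inside `tup_mono`. -/
theorem J_mono_counts (M : ℕ) (nu : Fin M → Measure S) [∀ i, IsProbabilityMeasure (nu i)]
    {f : Set S → ℝ≥0∞} (hf : MS f) (hmono : ∀ A B, A ⊆ B → f A ≤ f B) :
    Monotone fun D : Fin M → ℕ => J M nu D f := by
  induction M generalizing f with
  | zero =>
    intro D D' _
    exact le_rfl
  | succ M ih =>
    intro D D' hD
    change tup (nu 0) (D 0) (fun A => J M (fun i => nu i.succ) (fun i => D i.succ)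
        fun B => f (A ∪ B)) ≤
      tup (nu 0) (D' 0) (fun A => J M (fun i => nu i.succ) (fun i => D' i.succ)
        fun B => f (A ∪ B))
    refine le_trans (tup_mono (nu 0) (D 0) fun A hA => ?_)
      (tup_mono_nat (nu 0) (MS_J M (fun i => nu i.succ) (fun i => D' i.succ) hf) ?_ (hD 0))
    · exact ih (fun i => nu i.succ) (MS_union_left hf hA)
        (fun B B' hB => hmono _ _ (Set.union_subset_union_right A hB))
        (show (fun i : Fin M => D i.succ) ≤ fun i => D' i.succ from fun i => hD i.succ)
    · intro A B hAB
      exact J_mono M _ _ fun C _ => hmono _ _ (Set.union_subset_union_left C hAB)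

end Pool.Agent.Helper94.B2
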