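import Mathlib
import Pool.Agent.Helper94.B2.St.D9
import Pool.Agent.Helper94.B2.St.J2
import Pool.Agent.Helper94.B2.St.J3
import Pool.Agent.Helper94.B2.St.J4

/-!
Project B2 (MP_8410f8_pr), piece J5: the abstract master inequality.
-/

open MeasureTheory Set
open scoped ENNReal

namespace Pool.Agent.Helper94.B2

open Pool.Agent.Helper97.BG

variable {S : Type*} [MeasurableSpace S]

/-- Expand both sides with `Poi_split_cells` (`t i ≠ ∞` follows from `ht`; also `3/4 * t i ≠ ∞`) and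
apply `discrete_main` to `g' D = J M nu D g` (monotone: `J_mono_counts`, at most one: `J_le_one`) and
`h' N = J M nu N h`. The hypothesis `hdel` of `discrete_main` is `J_del` with `W = greedy H w`
(`greedy_indep`), and `kept H w = fun i => if i ∈ greedy H w then 0 else (w i).1` by definition. -/
theorem master_abs (M : ℕ) (nu : Fin M → Measure S) [∀ i, IsProbabilityMeasure (nu i)]
    {H : Fin M → Fin M → Prop} (hsym : ∀ u v, H u v → H v u) (hirr : ∀ v, ¬ H v v) (Dg : ℕ)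
    (hdeg : ∀ v, {u | H v u}.ncard ≤ Dg) (t : Fin M → ℝ≥0∞)
    (ht : ∀ v, t v * (4 ^ Dg * (12 * (Dg + 1) * 2 ^ Dg)) ≤ 1)
    (Bs : Fin M → Set S) (hBs : ∀ i, ∀ᵐ x ∂(nu i), x ∈ Bs i)
    {g h : Set S → ℝ≥0∞} (hg : MS g) (hh : MS h) (hgm : ∀ A B, A ⊆ B → g A ≤ g B)
    (hg1 : ∀ A, g A ≤ 1)
    (hdel : ∀ W : Set (Fin M), (∀ u ∈ W, ∀ v ∈ W, ¬ H u v) → ∀ A B : Set S, A.Finite → B.Finite →
      B ⊆ ⋃ i ∈ W, Bs i → h (A ∪ B) ≤ g A) :
    Poi (∑ i, t i • nu i) h ≤ Poi (∑ i, (3 / 4 * t i) • nu i) g := by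
  have hc : (4 : ℝ≥0∞) ^ Dg * (12 * (Dg + 1) * 2 ^ Dg) ≠ 0 := by positivity
  have htop : ∀ i, t i ≠ ∞ := by
    intro i hi
    have := ht i
    rw [hi, ENNReal.top_mul hc] at this
    exact absurd this (by simp)
  have htop' : ∀ i, 3 / 4 * t i ≠ ∞ := by
    intro i
    exact ENNReal.mul_ne_top (ENNReal.div_ne_top (by simp) (by simp)) (htop i)
  rw [Poi_split_cells M t htop nu hh, Poi_split_cells M (fun i => 3 / 4 * t i) htop' nu hg]
  refine discrete_main hsym hirr Dg hdeg t ht (fun D => J M nu D g) (fun N => J M nu N h)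
    (J_mono_counts M nu hg hgm) (fun D => J_le_one M nu D hg1) ?_
  intro w
  exact J_del M nu Bs hBs (greedy H w) (fun v => (w v).1) h g
    (fun A B hA hB hAB => hdel (greedy H w) (greedy_indep hsym hirr w) A B hA hB hAB)

end Pool.Agent.Helper94.B2
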