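import Mathlib
import Pool.Agent.Helper94.B2.St.J5
import Pool.Agent.Helper94.B2.St.G3
import Pool.Agent.Helper94.B2.St.G4
import Pool.Agent.Helper97.BG.St.P4
import Pool.Agent.Helper97.BG.St.M1

/-!
Project B2 (MP_8410f8_pr), piece G5: one more colour against a constant factor of points.
-/

open MeasureTheory Set
open scoped ENNReal

namespace Pool.Agent.Helper94.B2

open Pool.Agent.Helper97.BG

variable {d : ℕ}

private lemma g5_ind_mono {p q : Prop} (h : p → q) : ind p ≤ ind q := by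
  unfold ind
  by_cases hp : p
  · rw [if_pos hp, if_pos (h hp)]
  · rw [if_neg hp]
    exact bot_le

private lemma g5_ind_le_one (p : Prop) : ind p ≤ 1 := by
  unfold ind
  by_cases hp : p
  · rw [if_pos hp]
  · rw [if_neg hp]
    exact zero_le_one

private lemma g5_fin (d : ℕ) (L : ℝ) : IsFiniteMeasure (ENNReal.ofReal L • sig d) :=
  Measure.smul_finite (sig d) ENNReal.ofReal_ne_top

/-- `master_abs` for the cells of `exists_cells`, on top of a fixed finite background `A₀`: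
`H i j = (i ≠ j ∧ ‖z i + z j‖ ≤ 2 a)`, `Bs i = {x | ‖x - z i‖ ≤ a/2}`, `Dg = 9^(d+1)`, intensities
`ofReal L * t i ≤ ofReal (L * C * a^d)`, `h A = ind (¬ Col a (k+1) (A₀ ∪ A))`,
`g A = ind (¬ Col a k (A₀ ∪ A))` (`MS_union_left`, `MS_notCol` of piece M1, `Col_mono`). `hdel`: `cells_indep` and
`Col_union` (`A₀ ∪ (A ∪ B) = (A₀ ∪ A) ∪ B`). Measures: `∑ (ofReal L * t i) • nu i = ofReal L • sig d`
(`smul_smul`, `Finset.smul_sum`), and `3/4 * (ofReal L * t i) = ofReal (3/4 * L) * t i`. -/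
theorem master (d : ℕ) : ∃ m : ℝ, 0 < m ∧ ∀ a : ℝ, 0 < a → a < 1 → ∀ L : ℝ, 0 ≤ L → L * a ^ d ≤ m →
    ∀ (k : ℕ) (A₀ : Set (Sph d)), A₀.Finite →
      Poi (ENNReal.ofReal L • sig d) (fun A => ind (¬ Col a (k + 1) (A₀ ∪ A))) ≤
        Poi (ENNReal.ofReal (3 / 4 * L) • sig d) (fun A => ind (¬ Col a k (A₀ ∪ A))) := by
  obtain ⟨C, hC1, hC⟩ := exists_cells d
  have hC0 : 0 < C := by linarith
  set Dg : ℕ := 9 ^ (d + 1) with hDg
  set K : ℕ := 4 ^ Dg * (12 * (Dg + 1) * 2 ^ Dg) with hK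
  have hK0 : (0 : ℝ) < K := by
    have : 0 < K := by rw [hK]; positivity
    exact_mod_cast this
  refine ⟨1 / (C * K), by positivity, ?_⟩
  intro a ha ha1 L hL hLm k A₀ hA₀
  obtain ⟨M, z, t, nu, hprob, hnear, hsum, ht, hdeg⟩ := hC a ha
  have : ∀ i, IsProbabilityMeasure (nu i) := hprob
  have hint : ∀ v, ENNReal.ofReal L * t v * (4 ^ Dg * (12 * (Dg + 1) * 2 ^ Dg)) ≤ 1 := by
    intro v
    have hKe : ((4 : ℝ≥0∞) ^ Dg * (12 * (Dg + 1) * 2 ^ Dg)) = ENNReal.ofReal (K : ℝ) := by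
      rw [ENNReal.ofReal_natCast, hK]
      push_cast
      ring
    rw [hKe]
    calc ENNReal.ofReal L * t v * ENNReal.ofReal (K : ℝ)
        ≤ ENNReal.ofReal L * ENNReal.ofReal (C * a ^ d) * ENNReal.ofReal (K : ℝ) := by
          gcongr
          exact ht v
      _ = ENNReal.ofReal (L * (C * a ^ d) * K) := by
          rw [← ENNReal.ofReal_mul hL, ← ENNReal.ofReal_mul (by positivity)]
      _ ≤ ENNReal.ofReal 1 := by
          apply ENNReal.ofReal_le_ofReal
          calc L * (C * a ^ d) * K = (L * a ^ d) * (C * K) := by ring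
            _ ≤ 1 / (C * K) * (C * K) :=
              mul_le_mul_of_nonneg_right hLm (by positivity)
            _ = 1 := by field_simp
      _ = 1 := ENNReal.ofReal_one
  have hmain := master_abs M nu (H := fun i j => i ≠ j ∧ ‖(z i : V d) + z j‖ ≤ 2 * a)
    (fun u v h => ⟨h.1.symm,
      le_of_eq_of_le (congrArg (fun w : V d => ‖w‖) (add_comm (z v : V d) (z u))) h.2⟩)
    (fun v h => h.1 rfl) Dg
    (fun v => hdeg v) (fun i => ENNReal.ofReal L * t i) hint
    (fun i => {x : Sph d | ‖(x : V d) - z i‖ ≤ a / 2}) hnear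
    (g := fun A => ind (¬ Col a k (A₀ ∪ A))) (h := fun A => ind (¬ Col a (k + 1) (A₀ ∪ A)))
    (MS_union_left (MS_notCol a k) hA₀) (MS_union_left (MS_notCol a (k + 1)) hA₀)
    (fun A B hAB => g5_ind_mono fun h1 h2 => h1 (Col_mono (Set.union_subset_union_right A₀ hAB) h2))
    (fun A => g5_ind_le_one _) ?_
  · have h1 : ∑ i, (ENNReal.ofReal L * t i) • nu i = ENNReal.ofReal L • sig d := by
      rw [← hsum, Finset.smul_sum]
      exact Finset.sum_congr rfl fun i _ => mul_smul _ _ _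
    have h34 : (3 / 4 : ℝ≥0∞) = ENNReal.ofReal (3 / 4) := by
      rw [ENNReal.ofReal_div_of_pos (by norm_num)]
      norm_num
    have h2 : ∑ i, (3 / 4 * (ENNReal.ofReal L * t i)) • nu i =
        ENNReal.ofReal (3 / 4 * L) • sig d := by
      rw [← hsum, Finset.smul_sum]
      refine Finset.sum_congr rfl fun i _ => ?_
      rw [smul_smul, ENNReal.ofReal_mul (by norm_num : (0 : ℝ) ≤ 3 / 4), h34, mul_assoc]
    rw [h1, h2] at hmain
    exact hmain
  · intro W hW A B _ _ hBW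
    refine g5_ind_mono fun h1 h2 => h1 ?_
    rw [← Set.union_assoc]
    exact Col_union h2 fun p hp q hq => cells_indep ha1 z W hW p q (hBW hp) (hBW hq)

/-- The main inequality. With `m` from `master` put `κ' = min (1/2) (m / c)` and `κ = κ' / 4`. For given
`a`, `L` write `L₂ = κ' L` (so `L₂ a^d ≤ m`) and `L₁ = (1 - κ') L`; superposition
`ofReal L • sig = ofReal L₁ • sig + ofReal L₂ • sig` (`Poi_add_measure`), `Poi_mono` with `master` for
each finite `A₀`, and superposition backwards: `L₁ + 3/4 L₂ = (1 - κ) L`. -/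
theorem MAIN (d : ℕ) (c : ℝ) (hc : 0 < c) : ∃ κ : ℝ, 0 < κ ∧ κ < 1 ∧ ∀ a : ℝ, 0 < a → a < 1 →
    ∀ L : ℝ, 0 ≤ L → L * a ^ d ≤ c → ∀ k : ℕ,
      Poi (ENNReal.ofReal L • sig d) (fun A => ind (¬ Col a (k + 1) A)) ≤
        Poi (ENNReal.ofReal ((1 - κ) * L) • sig d) (fun A => ind (¬ Col a k A)) := by
  obtain ⟨m, hm, hmaster⟩ := master d
  set κ' : ℝ := min (1 / 2) (m / c) with hκ'
  have hκ0 : 0 < κ' := lt_min (by norm_num) (by positivity)
  have hκ1 : κ' ≤ 1 / 2 := min_le_left _ _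
  have hκ2 : κ' * c ≤ m := by
    have h1 : κ' ≤ m / c := min_le_right _ _
    calc κ' * c ≤ m / c * c := mul_le_mul_of_nonneg_right h1 hc.le
      _ = m := by field_simp
  refine ⟨κ' / 4, by linarith, by linarith, ?_⟩
  intro a ha ha1 L hL hLc k
  have hL2 : 0 ≤ κ' * L := mul_nonneg hκ0.le hL
  have hL1 : 0 ≤ (1 - κ') * L := mul_nonneg (by linarith) hL
  have hL2m : κ' * L * a ^ d ≤ m := by
    calc κ' * L * a ^ d = κ' * (L * a ^ d) := by ring
      _ ≤ κ' * c := mul_le_mul_of_nonneg_left hLc hκ0.le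
      _ ≤ m := hκ2
  have := g5_fin d
  have e1 : ENNReal.ofReal L • sig d =
      ENNReal.ofReal ((1 - κ') * L) • sig d + ENNReal.ofReal (κ' * L) • sig d := by
    rw [← add_smul, ← ENNReal.ofReal_add hL1 hL2]
    congr 2
    ring
  have e2 : ENNReal.ofReal ((1 - κ' / 4) * L) • sig d =
      ENNReal.ofReal ((1 - κ') * L) • sig d + ENNReal.ofReal (3 / 4 * (κ' * L)) • sig d := by
    rw [← add_smul, ← ENNReal.ofReal_add hL1 (by positivity)]
    congr 2
    ring
  rw [e1, e2, Poi_add_measure _ _ (MS_notCol a (k + 1)), Poi_add_measure _ _ (MS_notCol a k)]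
  exact Poi_mono _ fun A hA => hmaster a ha ha1 (κ' * L) hL2 hL2m k A hA

end Pool.Agent.Helper94.B2
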